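import Mathlib

/-!
# Ford's square root lemma with a possibly discontinuous involution
-/

open Topology Filter Set
open scoped ComplexConjugate NNReal ENNReal

namespace Pool.Agent.Work.MP_10b086_an

/-- `s` is an algebra involution (conjugate linear, antimultiplicative, involutive). -/
structure IsInv {U : Type*} [Ring U] [Algebra ℂ U] (s : U → U) : Prop where
  add : ∀ x y, s (x + y) = s x + s y
  smul : ∀ (c : ℂ) x, s (c • x) = conj c • s x
  mul : ∀ x y, s (x * y) = s y * s x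
  invol : ∀ x, s (s x) = x

section Alg
variable {U : Type*} [Ring U] [Algebra ℂ U] {s : U → U} (hs : IsInv s)
include hs

theorem IsInv.zero : s 0 = 0 := by
  have := hs.smul 0 0
  simpa using this

theorem IsInv.one : s 1 = 1 := by
  have h := hs.mul (s 1) 1
  rw [mul_one, hs.invol, mul_one] at h
  have h2 : s (s 1) = 1 := hs.invol 1
  have h3 : s 1 = s 1 * s (s 1) := by rw [h2, mul_one]
  rw [← hs.mul, mul_one] at h3
  rw [h3, h2]

theorem IsInv.neg (x : U) : s (-x) = - s x := by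
  have h := hs.smul (-1) x
  simpa using h

theorem IsInv.sub (x y : U) : s (x - y) = s x - s y := by
  rw [sub_eq_add_neg, hs.add, hs.neg, ← sub_eq_add_neg]

theorem IsInv.spectrum_subset (x : U) : ∀ z ∈ spectrum ℂ (s x), conj z ∈ spectrum ℂ x := by
  intro z hz hcon
  apply hz
  rw [resolventSet, mem_ofPred_eq] at hcon ⊢
  obtain ⟨v, hv⟩ := hcon
  have h1 : s (algebraMap ℂ U (conj z) - x) = algebraMap ℂ U z - s x := by
    rw [hs.sub, Algebra.algebraMap_eq_smul_one, hs.smul, hs.one, Complex.conj_conj,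
      Algebra.algebraMap_eq_smul_one]
  rw [← h1, ← hv]
  refine ⟨⟨s v, s ↑v⁻¹, ?_, ?_⟩, rfl⟩
  · rw [← hs.mul, Units.inv_mul, hs.one]
  · rw [← hs.mul, Units.mul_inv, hs.one]

end Alg

section Norm
variable {U : Type*} [NormedRing U] [NormedAlgebra ℂ U] {s : U → U}

theorem IsInv.spectralRadius_le (hs : IsInv s) (x : U) :
    spectralRadius ℂ (s x) ≤ spectralRadius ℂ x := by
  rw [spectralRadius, spectralRadius]
  refine iSup₂_le fun z hz => ?_
  have h := hs.spectrum_subset x z hz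
  have h2 := le_iSup₂ (f := fun (k : ℂ) (_ : k ∈ spectrum ℂ x) => (‖k‖₊ : ℝ≥0∞)) (conj z) h
  simpa using h2

theorem IsInv.spectralRadius_eq (hs : IsInv s) (x : U) :
    spectralRadius ℂ (s x) = spectralRadius ℂ x := by
  refine le_antisymm (hs.spectralRadius_le x) ?_
  conv_lhs => rw [← hs.invol x]
  exact hs.spectralRadius_le (s x)

variable [CompleteSpace U]

/-- If the spectral radius is `< κ`, then eventually `‖x ^ n‖ ≤ κ ^ n`. -/
theorem eventually_pow_le {x : U} {κ : ℝ} (hκ : 0 ≤ κ)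
    (h : spectralRadius ℂ x < ENNReal.ofReal κ) : ∀ᶠ n : ℕ in atTop, ‖x ^ n‖ ≤ κ ^ n := by
  have h1 := spectrum.pow_nnnorm_pow_one_div_tendsto_nhds_spectralRadius x
  filter_upwards [h1.eventually_lt_const h, eventually_gt_atTop 0] with n hn hn0
  have hn0' : (n : ℝ) ≠ 0 := by positivity
  have h2 : ((‖x ^ n‖₊ : ℝ≥0∞) ^ (1 / (n : ℝ))) ^ (n : ℝ) ≤ (ENNReal.ofReal κ) ^ (n : ℝ) :=
    ENNReal.rpow_le_rpow hn.le (by positivity)
  rw [← ENNReal.rpow_mul, one_div_mul_cancel hn0', ENNReal.rpow_one, ENNReal.rpow_natCast,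
    ← ENNReal.ofReal_pow hκ] at h2
  rw [← ENNReal.ofReal_coe_nnreal, coe_nnnorm, ENNReal.ofReal_le_ofReal_iff (by positivity)] at h2
  exact h2

theorem spectralRadius_le_of_pow [NormOneClass U] {x : U} {κ : ℝ} {n : ℕ} (hn : n ≠ 0)
    (h : ‖x ^ n‖ ≤ κ ^ n) (hκ : 0 ≤ κ) : spectralRadius ℂ x ≤ ENNReal.ofReal κ := by
  have h1 := spectrum.spectralRadius_pow_le (𝕜 := ℂ) x n hn
  have h2 := spectrum.spectralRadius_le_nnnorm (𝕜 := ℂ) (x ^ n)
  have h3 : (‖x ^ n‖₊ : ℝ≥0∞) ≤ (ENNReal.ofReal κ) ^ n := by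
    rw [← ENNReal.ofReal_pow hκ, ← ENNReal.ofReal_coe_nnreal, coe_nnnorm]
    exact ENNReal.ofReal_le_ofReal h
  have h4 := h1.trans (h2.trans h3)
  exact (ENNReal.pow_le_pow_left_iff hn).1 h4

/-- the power series for `1 - √(1 - h)`, as a fixed point -/
theorem exists_root {h : U} (h1 : ‖h‖ < 1) : ∃ w : U, ‖w‖ ≤ ‖h‖ ∧ w = (2⁻¹ : ℂ) • (h + w * w) ∧
    ∀ v : U, Commute v h → Commute v w := by
  set η : ℝ := ‖h‖ with hη
  have hη0 : 0 ≤ η := norm_nonneg _
  let f : U → U := fun w => (2⁻¹ : ℂ) • (h + w * w)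
  have hmaps : MapsTo f (Metric.closedBall (0 : U) η) (Metric.closedBall (0 : U) η) := by
    intro w hw
    rw [mem_closedBall_zero_iff] at hw ⊢
    calc ‖(2⁻¹ : ℂ) • (h + w * w)‖ = 2⁻¹ * ‖h + w * w‖ := by rw [norm_smul]; norm_num
      _ ≤ 2⁻¹ * (‖h‖ + ‖w * w‖) := by gcongr; exact norm_add_le _ _
      _ ≤ 2⁻¹ * (η + η * η) := by
          gcongr
          exact (norm_mul_le _ _).trans (by gcongr)
      _ ≤ η := by nlinarith
  have hlip : ContractingWith ⟨η, hη0⟩ (hmaps.restrict f _ _) := by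
    refine ⟨by exact_mod_cast h1, ?_⟩
    refine LipschitzWith.of_dist_le_mul fun w v => ?_
    have hw : ‖(w : U)‖ ≤ η := mem_closedBall_zero_iff.1 w.2
    have hv : ‖(v : U)‖ ≤ η := mem_closedBall_zero_iff.1 v.2
    change dist ((2⁻¹ : ℂ) • (h + (w : U) * w)) ((2⁻¹ : ℂ) • (h + (v : U) * v)) ≤ η * dist (w : U) v
    rw [dist_eq_norm, dist_eq_norm, ← smul_sub, norm_smul]
    have e : h + (w : U) * w - (h + v * v) = w * (w - v) + (w - v) * v := by noncomm_ring
    rw [e]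
    have h2 : ‖(w : U) * (w - v) + (w - v) * v‖ ≤ η * ‖(w : U) - v‖ + ‖(w : U) - v‖ * η := by
      refine (norm_add_le _ _).trans (add_le_add ?_ ?_)
      · exact (norm_mul_le _ _).trans (by gcongr)
      · exact (norm_mul_le _ _).trans (by gcongr)
    have h3 : ‖(2⁻¹ : ℂ)‖ = 2⁻¹ := by norm_num
    rw [h3]
    nlinarith
  obtain ⟨w, hw, hfix, htend, -⟩ := ContractingWith.exists_fixedPoint' (f := f)
    Metric.isClosed_closedBall.isComplete hmaps hlip (x := 0) (by simpa using hη0) (edist_ne_top _ _)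
  refine ⟨w, mem_closedBall_zero_iff.1 hw, hfix.symm, fun v hv => ?_⟩
  have hit : ∀ n : ℕ, Commute v (f^[n] 0) := by
    intro n
    induction n with
    | zero => exact Commute.zero_right _
    | succ n ih =>
      rw [Function.iterate_succ_apply']
      exact ((hv.add_right (ih.mul_right ih)).smul_right _)
  have h4 : Tendsto (fun n => v * f^[n] 0) atTop (𝓝 (v * w)) := htend.const_mul v
  have h5 : Tendsto (fun n => f^[n] 0 * v) atTop (𝓝 (w * v)) := htend.mul_const v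
  have h6 : (fun n => v * f^[n] 0) = (fun n => f^[n] 0 * v) := funext fun n => hit n
  rw [h6] at h4
  exact tendsto_nhds_unique h4 h5

theorem pow_le_const {v : U} {κ : ℝ} (hκ : 0 < κ) (h : spectralRadius ℂ v < ENNReal.ofReal κ) :
    ∃ C : ℝ, 0 ≤ C ∧ ∀ n : ℕ, ‖v ^ n‖ ≤ C * κ ^ n := by
  obtain ⟨N, hN⟩ := eventually_atTop.1 (eventually_pow_le hκ.le h)
  refine ⟨1 + ∑ n ∈ Finset.range N, ‖v ^ n‖ / κ ^ n, by positivity, fun n => ?_⟩
  have hsum : 0 ≤ ∑ n ∈ Finset.range N, ‖v ^ n‖ / κ ^ n := by positivity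
  by_cases hn : N ≤ n
  · refine (hN n hn).trans ?_
    nlinarith [pow_pos hκ n]
  · have h1 : ‖v ^ n‖ / κ ^ n ≤ ∑ n ∈ Finset.range N, ‖v ^ n‖ / κ ^ n :=
      Finset.single_le_sum (f := fun n => ‖v ^ n‖ / κ ^ n) (fun i _ => by positivity)
        (Finset.mem_range.2 (not_le.1 hn))
    have h2 : ‖v ^ n‖ = ‖v ^ n‖ / κ ^ n * κ ^ n := by field_simp
    rw [h2]
    have h3 := pow_pos hκ n
    nlinarith

/-- Ford's square root lemma (for elements of norm `< 1`). -/
theorem ford [NormOneClass U] (hs : IsInv s) {h : U} (hh : s h = h) (h1 : ‖h‖ < 1) :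
    ∃ x : U, s x = x ∧ x * x = 1 - h := by
  obtain ⟨w, hw, hfix, hcomm⟩ := exists_root h1
  -- `s w` satisfies the same equation
  have hfix' : s w = (2⁻¹ : ℂ) • (h + s w * s w) := by
    conv_lhs => rw [hfix]
    have hc : conj (2⁻¹ : ℂ) = 2⁻¹ := by rw [map_inv₀, map_ofNat]
    rw [hs.smul, hs.add, hh, hs.mul, hc]
  have hv1 : h = (2 : ℂ) • s w - s w * s w := by
    have : (2 : ℂ) • s w = h + s w * s w := by
      conv_lhs => rw [hfix', smul_smul]
      norm_num
    rw [this]; abel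
  have hcv : Commute (s w) h := by
    rw [hv1]
    exact ((Commute.refl (s w)).smul_right _).sub_right ((Commute.refl (s w)).mul_right (Commute.refl _))
  have hvw : Commute (s w) w := hcomm _ hcv
  -- `s w = w`
  have hd : w - s w = (w - s w) * ((2⁻¹ : ℂ) • (w + s w)) := by
    have e : w - s w = (2⁻¹ : ℂ) • (w * w - s w * s w) := by
      calc w - s w = (2⁻¹ : ℂ) • (h + w * w) - (2⁻¹ : ℂ) • (h + s w * s w) :=
            congrArg₂ (· - ·) hfix hfix'
        _ = (2⁻¹ : ℂ) • (w * w - s w * s w) := by rw [← smul_sub]; congr 1; abel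
    rw [mul_smul_comm]
    conv_lhs => rw [e]
    congr 1
    have : w * s w = s w * w := hvw.symm
    rw [sub_mul, mul_add, mul_add, this]
    abel
  obtain ⟨κ, hκ1, hκ2⟩ := exists_between h1
  have hκ0 : 0 < κ := (norm_nonneg h).trans_lt hκ1
  have hr : spectralRadius ℂ (s w) < ENNReal.ofReal κ := by
    rw [hs.spectralRadius_eq]
    refine (spectrum.spectralRadius_le_nnnorm w).trans_lt ?_
    rw [← ENNReal.ofReal_coe_nnreal, coe_nnnorm]
    exact (ENNReal.ofReal_lt_ofReal_iff hκ0).2 (hw.trans_lt hκ1)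
  obtain ⟨C, hC0, hC⟩ := pow_le_const hκ0 hr
  have hpow : ∀ n : ℕ, ‖((2⁻¹ : ℂ) • (w + s w)) ^ n‖ ≤ C * κ ^ n := by
    intro n
    rw [smul_pow, norm_smul, norm_pow, hvw.symm.add_pow]
    have h3 : ‖(2⁻¹ : ℂ)‖ = 2⁻¹ := by norm_num
    rw [h3]
    have h4 : ‖∑ m ∈ Finset.range (n + 1), w ^ m * (s w) ^ (n - m) * ((n.choose m : ℕ) : U)‖ ≤
        ∑ m ∈ Finset.range (n + 1), C * κ ^ n * (n.choose m : ℝ) := by
      refine norm_sum_le_of_le _ fun m hm => ?_
      have hmn : m ≤ n := Nat.lt_succ_iff.1 (Finset.mem_range.1 hm)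
      calc ‖w ^ m * (s w) ^ (n - m) * ((n.choose m : ℕ) : U)‖
          ≤ ‖w ^ m * (s w) ^ (n - m)‖ * ‖((n.choose m : ℕ) : U)‖ := norm_mul_le _ _
        _ ≤ (‖w‖ ^ m * (C * κ ^ (n - m))) * (n.choose m : ℝ) := by
            gcongr
            · exact (norm_mul_le _ _).trans (mul_le_mul (norm_pow_le w m) (hC _) (norm_nonneg _)
                (by positivity))
            · have := Nat.norm_cast_le (α := U) (n.choose m)
              simpa using this
        _ ≤ (κ ^ m * (C * κ ^ (n - m))) * (n.choose m : ℝ) := by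
            gcongr
            exact hw.trans hκ1.le
        _ = C * κ ^ n * (n.choose m : ℝ) := by
            have : κ ^ n = κ ^ m * κ ^ (n - m) := by rw [← pow_add, Nat.add_sub_cancel' hmn]
            rw [this]; ring
    rw [← Finset.mul_sum] at h4
    have h5 : (∑ m ∈ Finset.range (n + 1), (n.choose m : ℝ)) = 2 ^ n := by
      exact_mod_cast Nat.sum_range_choose n
    rw [h5] at h4
    calc (2⁻¹ : ℝ) ^ n * ‖∑ m ∈ Finset.range (n + 1), w ^ m * (s w) ^ (n - m) * ((n.choose m : ℕ) : U)‖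
        ≤ (2⁻¹ : ℝ) ^ n * (C * κ ^ n * 2 ^ n) := by gcongr
      _ = C * κ ^ n * ((2⁻¹ : ℝ) * 2) ^ n := by rw [mul_pow]; ring
      _ = C * κ ^ n := by norm_num
  have hdn : ∀ n : ℕ, w - s w = (w - s w) * ((2⁻¹ : ℂ) • (w + s w)) ^ n := by
    intro n
    induction n with
    | zero => simp
    | succ n ih =>
      rw [pow_succ', ← mul_assoc, ← hd]
      exact ih
  have hzero : w - s w = 0 := by
    rw [← norm_eq_zero]
    refine le_antisymm ?_ (norm_nonneg _)
    have ht : Tendsto (fun n : ℕ => ‖w - s w‖ * (C * κ ^ n)) atTop (𝓝 (‖w - s w‖ * (C * 0))) :=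
      ((tendsto_pow_atTop_nhds_zero_of_lt_one hκ0.le hκ2).const_mul C).const_mul _
    rw [mul_zero, mul_zero] at ht
    refine ge_of_tendsto' ht fun n => ?_
    calc ‖w - s w‖ = ‖(w - s w) * ((2⁻¹ : ℂ) • (w + s w)) ^ n‖ := by rw [← hdn n]
      _ ≤ ‖w - s w‖ * ‖((2⁻¹ : ℂ) • (w + s w)) ^ n‖ := norm_mul_le _ _
      _ ≤ _ := by gcongr; exact hpow n
  have hsw : s w = w := (sub_eq_zero.1 hzero).symm
  refine ⟨1 - w, by rw [hs.sub, hs.one, hsw], ?_⟩
  have h6 : (2 : ℂ) • w = h + w * w := by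
    conv_lhs => rw [hfix, smul_smul]
    norm_num
  have h7 : (1 - w) * (1 - w) = 1 - (2 : ℂ) • w + w * w := by
    rw [two_smul]; noncomm_ring
  rw [h7, h6]
  abel

end Norm

end Pool.Agent.Work.MP_10b086_an
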