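import Mathlib

/-!
# Positive semidefinite forms and symmetric operators `0 ≤ T ≤ 1`
-/

open Topology Filter Set
open scoped ComplexConjugate

namespace Pool.Agent.Work.MP_10b086_an

/-- positive semidefinite sesquilinear forms -/
structure IsPSD {V : Type*} [AddCommGroup V] [Module ℂ V] (B : V → V → ℂ) : Prop where
  add_left : ∀ x y z, B (x + y) z = B x z + B y z
  smul_left : ∀ (c : ℂ) x z, B (c • x) z = conj c * B x z
  add_right : ∀ x y z, B x (y + z) = B x y + B x z
  smul_right : ∀ (c : ℂ) x z, B x (c • z) = c * B x z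
  nonneg : ∀ x, 0 ≤ (B x x).re ∧ (B x x).im = 0

variable {V : Type*} [AddCommGroup V] [Module ℂ V] {B : V → V → ℂ}

theorem IsPSD.symm (h : IsPSD B) (x y : V) : conj (B y x) = B x y := by
  have h1 := (h.nonneg (x + y)).2
  have h2 := (h.nonneg (x + Complex.I • y)).2
  have hx := (h.nonneg x).2
  have hy := (h.nonneg y).2
  rw [h.add_left, h.add_right, h.add_right] at h1
  rw [h.add_left, h.add_right, h.add_right, h.smul_left, h.smul_left, h.smul_right,
    h.smul_right] at h2
  simp only [Complex.add_im, Complex.mul_im, Complex.mul_re, Complex.I_re, Complex.I_im,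
    Complex.conj_I, Complex.neg_re, Complex.neg_im] at h1 h2
  apply Complex.ext
  · rw [Complex.conj_re]; linarith
  · rw [Complex.conj_im]; linarith

/-- the associated core -/
@[implicit_reducible] noncomputable def IsPSD.core (h : IsPSD B) : PreInnerProductSpace.Core ℂ V where
  inner := B
  conj_inner_symm := h.symm
  re_inner_nonneg x := (h.nonneg x).1
  add_left := h.add_left
  smul_left x y r := h.smul_left r x y

theorem IsPSD.cs (h : IsPSD B) (x y : V) : ‖B x y‖ ^ 2 ≤ (B x x).re * (B y y).re := by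
  have h1 := @InnerProductSpace.Core.inner_mul_inner_self_le ℂ V _ _ _ h.core x y
  change ‖B x y‖ * ‖B y x‖ ≤ (B x x).re * (B y y).re at h1
  rw [← h.symm y x, RCLike.norm_conj] at h1
  rw [sq]
  exact h1

theorem IsPSD.neg_left (h : IsPSD B) (x z : V) : B (-x) z = - B x z := by
  have := h.smul_left (-1) x z
  simpa using this

theorem IsPSD.neg_right (h : IsPSD B) (x z : V) : B x (-z) = - B x z := by
  have := h.smul_right (-1) x z
  simpa using this

theorem IsPSD.sub_left (h : IsPSD B) (x y z : V) : B (x - y) z = B x z - B y z := by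
  rw [sub_eq_add_neg, h.add_left, h.neg_left, ← sub_eq_add_neg]

theorem IsPSD.sub_right (h : IsPSD B) (x y z : V) : B x (y - z) = B x y - B x z := by
  rw [sub_eq_add_neg, h.add_right, h.neg_right, ← sub_eq_add_neg]

section Op

variable (h : IsPSD B) (T : V →ₗ[ℂ] V) (hsym : ∀ x y, B (T x) y = B x (T y))
  (h0 : ∀ x, 0 ≤ (B x (T x)).re) (h1 : ∀ x, (B x (T x)).re ≤ (B x x).re)

include h hsym h0 in
theorem IsPSD.psd_op : IsPSD (fun x y => B x (T y)) where
  add_left x y z := h.add_left _ _ _
  smul_left c x z := h.smul_left _ _ _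
  add_right x y z := by rw [map_add, h.add_right]
  smul_right c x z := by rw [map_smul, h.smul_right]
  nonneg x := by
    refine ⟨h0 x, ?_⟩
    have h2 := h.symm x (T x)
    rw [hsym] at h2
    have h3 := congrArg Complex.im h2
    rw [Complex.conj_im] at h3
    linarith

include h hsym h0 h1 in
theorem IsPSD.sq_le (x : V) : (B (T x) (T x)).re ≤ (B x (T x)).re := by
  have h2 := (h.psd_op T hsym h0).cs x (T x)
  have e : B x (T (T x)) = B (T x) (T x) := (hsym x (T x)).symm
  rw [e] at h2
  have h3 : (B (T x) (T x)).re ≤ ‖B (T x) (T x)‖ := Complex.re_le_norm _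
  have h4 := h1 (T x)
  have h5 := (h.nonneg (T x)).1
  have h6 := h0 x
  have h7 := h0 (T x)
  by_contra hcon
  push Not at hcon
  have h8 : (B (T x) (T x)).re ^ 2 ≤ (B x (T x)).re * (B (T x) (T x)).re := by
    calc (B (T x) (T x)).re ^ 2 ≤ ‖B (T x) (T x)‖ ^ 2 := by gcongr
      _ ≤ _ := h2
      _ ≤ _ := by gcongr
  have h9 : 0 < (B (T x) (T x)).re := h6.trans_lt hcon
  nlinarith

include h hsym h0 h1 in
theorem IsPSD.contr (x : V) :
    (B (x - T x) (x - T x)).re ≤ (B x x).re - (B x (T x)).re := by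
  have e : B (x - T x) (x - T x) = B x x - B x (T x) - (B x (T x) - B (T x) (T x)) := by
    rw [h.sub_left, h.sub_right, h.sub_right, hsym x x]
  rw [e]
  simp only [Complex.sub_re]
  have := h.sq_le T hsym h0 h1 x
  linarith

/-- `L = 1 - T` -/
def Lop : V →ₗ[ℂ] V := LinearMap.id - T

omit h hsym h0 h1 in
theorem Lop_apply (x : V) : Lop T x = x - T x := rfl

include h hsym in
theorem Lop_symm (n : ℕ) (x y : V) : B ((Lop T ^ n) x) y = B x ((Lop T ^ n) y) := by
  induction n generalizing x y with
  | zero => simp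
  | succ n ih =>
    rw [pow_succ, Module.End.mul_apply, Module.End.mul_apply, ih, Lop_apply, h.sub_left, hsym,
      ← h.sub_right]
    congr 1
    have : Lop T ((Lop T ^ n) y) = (Lop T ^ n) (Lop T y) := by
      rw [← Module.End.mul_apply, ← Module.End.mul_apply, ← pow_succ', ← pow_succ]
    rw [← this, Lop_apply]

include h hsym h0 h1 in
theorem Lop_contr (n : ℕ) (x : V) :
    (B ((Lop T ^ n) x) ((Lop T ^ n) x)).re ≤ (B x x).re := by
  induction n with
  | zero => simp
  | succ n ih =>
    rw [pow_succ', Module.End.mul_apply, Lop_apply]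
    have h2 := h.contr T hsym h0 h1 ((Lop T ^ n) x)
    have h3 := h0 ((Lop T ^ n) x)
    linarith

include h hsym h0 h1 in
theorem Lop_tendsto (x : V) :
    Tendsto (fun n : ℕ => (B ((Lop T ^ n) x) (T ((Lop T ^ n) x))).re) atTop (𝓝 0) := by
  refine (summable_of_sum_range_le (c := (B x x).re) (fun n => h0 _) fun n => ?_).tendsto_atTop_zero
  have key : ∀ n : ℕ, ∑ i ∈ Finset.range n, (B ((Lop T ^ i) x) (T ((Lop T ^ i) x))).re ≤
      (B x x).re - (B ((Lop T ^ n) x) ((Lop T ^ n) x)).re := by
    intro n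
    induction n with
    | zero => simp
    | succ n ih =>
      rw [Finset.sum_range_succ, pow_succ', Module.End.mul_apply, Lop_apply]
      have h2 := h.contr T hsym h0 h1 ((Lop T ^ n) x)
      linarith
  have := key n
  have h2 := (h.nonneg ((Lop T ^ n) x)).1
  linarith

include h hsym h0 h1 in
theorem one_sub_Lop_contr (n : ℕ) (x : V) :
    (B (x - (Lop T ^ (n + n)) x) (x - (Lop T ^ (n + n)) x)).re ≤ (B x x).re := by
  have e : B (x - (Lop T ^ (n + n)) x) (x - (Lop T ^ (n + n)) x) =
      B x x - B ((Lop T ^ n) x) ((Lop T ^ n) x) - (B ((Lop T ^ n) x) ((Lop T ^ n) x) -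
        B ((Lop T ^ (n + n)) x) ((Lop T ^ (n + n)) x)) := by
    have e1 : B x ((Lop T ^ (n + n)) x) = B ((Lop T ^ n) x) ((Lop T ^ n) x) := by
      rw [pow_add, Module.End.mul_apply, ← Lop_symm h T hsym]
    have e2 : B ((Lop T ^ (n + n)) x) x = B ((Lop T ^ n) x) ((Lop T ^ n) x) := by
      rw [pow_add, Module.End.mul_apply, Lop_symm h T hsym]
    rw [h.sub_left, h.sub_right, h.sub_right, e1, e2]
  rw [e]
  simp only [Complex.sub_re]
  have h2 : (B ((Lop T ^ (n + n)) x) ((Lop T ^ (n + n)) x)).re ≤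
      (B ((Lop T ^ n) x) ((Lop T ^ n) x)).re := by
    rw [pow_add, Module.End.mul_apply]
    exact Lop_contr h T hsym h0 h1 n _
  have h3 := (h.nonneg ((Lop T ^ n) x)).1
  linarith

end Op

end Pool.Agent.Work.MP_10b086_an
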