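import Pool.Agent.Work.MP_10b086_an.NonUnital
import Pool.Agent.Work.MP_10b086_an.Form
import Pool.Agent.Work.MP_10b086_an.Bd.B01

/-!
# Traces on Banach *-algebras whose cube is closed and cofinite are continuous
-/

open Topology Filter Set
open scoped ComplexConjugate NNReal ENNReal

namespace Pool.Agent.Work.MP_10b086_an

section Powers

variable (A : Type*) [NonUnitalNormedRing A] [NormedSpace ℂ A]

/-- the span of all products `a b` -/
def Sq : Submodule ℂ A := Submodule.span ℂ {x | ∃ a b : A, x = a * b}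

/-- the span of all products `a b c` -/
def Cu : Submodule ℂ A := Submodule.span ℂ {x | ∃ a b c : A, x = a * b * c}

end Powers

variable {A : Type*} [NonUnitalNormedRing A] [NormedSpace ℂ A] [IsScalarTower ℂ A A]
  [SMulCommClass ℂ A A] [CompleteSpace A] [StarRing A] [StarModule ℂ A]

omit [IsScalarTower ℂ A A] [SMulCommClass ℂ A A] [CompleteSpace A] [StarRing A]
  [StarModule ℂ A] in
theorem mul_mem_Sq (a b : A) : a * b ∈ Sq A := Submodule.subset_span ⟨a, b, rfl⟩

omit [IsScalarTower ℂ A A] [SMulCommClass ℂ A A] [CompleteSpace A] [StarRing A]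
  [StarModule ℂ A] in
theorem mul_mem_Cu (a b c : A) : a * b * c ∈ Cu A := Submodule.subset_span ⟨a, b, c, rfl⟩

omit [CompleteSpace A] [StarRing A] [StarModule ℂ A] in
theorem mul_mem_Cu_left {x : A} (hx : x ∈ Sq A) (c : A) : x * c ∈ Cu A := by
  refine Submodule.span_induction (p := fun x _ => x * c ∈ Cu A) ?_ ?_ ?_ ?_ hx
  · rintro _ ⟨a, b, rfl⟩; exact mul_mem_Cu a b c
  · rw [zero_mul]; exact zero_mem _
  · intro x y _ _ h1 h2; rw [add_mul]; exact add_mem h1 h2
  · intro r x _ h1; rw [smul_mul_assoc]; exact Submodule.smul_mem _ _ h1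

omit [CompleteSpace A] [StarRing A] [StarModule ℂ A] in
theorem mul_mem_Cu_right {x : A} (hx : x ∈ Sq A) (c : A) : c * x ∈ Cu A := by
  refine Submodule.span_induction (p := fun x _ => c * x ∈ Cu A) ?_ ?_ ?_ ?_ hx
  · rintro _ ⟨a, b, rfl⟩; rw [← mul_assoc]; exact mul_mem_Cu c a b
  · rw [mul_zero]; exact zero_mem _
  · intro x y _ _ h1 h2; rw [mul_add]; exact add_mem h1 h2
  · intro r x _ h1; rw [mul_smul_comm]; exact Submodule.smul_mem _ _ h1

omit [IsScalarTower ℂ A A] [SMulCommClass ℂ A A] [CompleteSpace A] [StarRing A]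
  [StarModule ℂ A] in
theorem Cu_le_Sq : Cu A ≤ Sq A := by
  refine Submodule.span_le.2 ?_
  rintro _ ⟨a, b, c, rfl⟩
  exact mul_mem_Sq _ _

/-- for `c` in the square, `z ↦ f (c z)` is continuous -/
theorem continuous_mul_Sq {f : A →ₗ[ℂ] ℂ} (hf : IsTrace f) {c : A} (hc : c ∈ Sq A) :
    Continuous fun z : A => f (c * z) := by
  refine Submodule.span_induction (p := fun c _ => Continuous fun z : A => f (c * z))
    ?_ ?_ ?_ ?_ hc
  · rintro _ ⟨a, b, rfl⟩
    refine (continuous_mul_mul hf.1 b a).congr fun z => ?_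
    rw [← mul_assoc, ← hf.2, mul_assoc]
  · simp only [zero_mul, map_zero]; exact continuous_const
  · intro x y _ _ h1 h2; simp only [add_mul, map_add]; exact h1.add h2
  · intro r x _ h1; simp only [smul_mul_assoc, map_smul, smul_eq_mul]
    exact continuous_const.mul h1

/-- the trace seminorm squared -/
def q (f : A →ₗ[ℂ] ℂ) (x : A) : ℝ := (f (star x * x)).re

theorem cs_trace {f : A →ₗ[ℂ] ℂ} (hf : IsTrace f) (u v : A) :
    ‖f (v * u)‖ ^ 2 ≤ q f (star v) * q f u := by
  have := (psd_of_isPositive hf.1).cs (star v) u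
  simpa [q] using this

theorem q_nonneg {f : A →ₗ[ℂ] ℂ} (hf : IsPositive f) (u : A) : 0 ≤ q f u := (hf u).1

/-- the contractions among left multiplications by elements of the square -/
def Cs (f : A →ₗ[ℂ] ℂ) : Set A := {c | c ∈ Sq A ∧ ∀ x, q f (c * x) ≤ q f x}

theorem bdd_on_Sq {f : A →ₗ[ℂ] ℂ} (hf : IsTrace f) {z : A} (hz : z ∈ Sq A) :
    ∃ M : ℝ, ∀ c ∈ Cs f, ‖f (c * z)‖ ≤ M := by
  refine Submodule.span_induction (p := fun z _ => ∃ M : ℝ, ∀ c ∈ Cs f, ‖f (c * z)‖ ≤ M)
    ?_ ?_ ?_ ?_ hz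
  · rintro _ ⟨u, v, rfl⟩
    refine ⟨Real.sqrt (q f (star v) * q f u), fun c hc => ?_⟩
    apply Real.le_sqrt_of_sq_le
    rw [← mul_assoc, hf.2]
    refine (cs_trace hf _ _).trans ?_
    exact mul_le_mul_of_nonneg_left (hc.2 u) (q_nonneg hf.1 _)
  · exact ⟨0, fun c _ => by simp⟩
  · rintro x y _ _ ⟨M, hM⟩ ⟨N, hN⟩
    refine ⟨M + N, fun c hc => ?_⟩
    rw [mul_add, map_add]
    exact (norm_add_le _ _).trans (add_le_add (hM c hc) (hN c hc))
  · rintro r x _ ⟨M, hM⟩
    refine ⟨‖r‖ * M, fun c hc => ?_⟩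
    rw [mul_smul_comm, map_smul, smul_eq_mul, norm_mul]
    exact mul_le_mul_of_nonneg_left (hM c hc) (norm_nonneg _)

theorem uniform_bound {f : A →ₗ[ℂ] ℂ} (hf : IsTrace f) (hcl : IsClosed (Cu A : Set A)) :
    ∃ M : ℝ, ∀ c ∈ Cs f, ∀ z ∈ Cu A, ‖f (c * z)‖ ≤ M * ‖z‖ := by
  have : CompleteSpace (Cu A) := hcl.completeSpace_coe
  let g : Cs f → (Cu A →L[ℂ] ℂ) := fun c =>
    { toLinearMap := (f ∘ₗ (LinearMap.mulLeft ℂ (c : A))) ∘ₗ (Cu A).subtype
      cont := (continuous_mul_Sq hf c.2.1).comp continuous_subtype_val }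
  obtain ⟨M, hM⟩ := banach_steinhaus (g := g) (by
    intro x
    obtain ⟨M, hM⟩ := bdd_on_Sq hf (Cu_le_Sq x.2)
    exact ⟨M, fun i => hM i i.2⟩)
  refine ⟨M, fun c hc z hz => ?_⟩
  have h1 := (g ⟨c, hc⟩).le_opNorm ⟨z, hz⟩
  have h2 := hM ⟨c, hc⟩
  calc ‖f (c * z)‖ = ‖g ⟨c, hc⟩ ⟨z, hz⟩‖ := rfl
    _ ≤ ‖g ⟨c, hc⟩‖ * ‖(⟨z, hz⟩ : Cu A)‖ := h1
    _ ≤ M * ‖z‖ := mul_le_mul_of_nonneg_right h2 (norm_nonneg _)

section Approx

variable (b : A)

/-- the approximants: `c₀ = 0`, `c_{n+1} = c_n + b - b c_n` -/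
def cseq : ℕ → A
  | 0 => 0
  | n + 1 => cseq n + b - b * cseq n

/-- left multiplication by `b` -/
def lmul : A →ₗ[ℂ] A := LinearMap.mulLeft ℂ b

omit [CompleteSpace A] [StarRing A] [StarModule ℂ A] in
theorem sub_cseq (n : ℕ) (y : A) : y - cseq b n * y = (Lop (lmul b) ^ n) y := by
  induction n with
  | zero => simp [cseq]
  | succ n ih =>
    rw [pow_succ', Module.End.mul_apply, ← ih, Lop_apply]
    change y - (cseq b n + b - b * cseq b n) * y = y - cseq b n * y - b * (y - cseq b n * y)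
    rw [sub_mul, add_mul, mul_sub, mul_assoc]
    abel

omit [CompleteSpace A] [StarRing A] [StarModule ℂ A] [IsScalarTower ℂ A A]
  [SMulCommClass ℂ A A] in
theorem cseq_mem (hb : b ∈ Sq A) (n : ℕ) : cseq b n ∈ Sq A := by
  induction n with
  | zero => exact zero_mem _
  | succ n ih => exact sub_mem (add_mem ih hb) (mul_mem_Sq _ _)

omit [CompleteSpace A] [StarRing A] [StarModule ℂ A] in
theorem pow_Lop_mul (n : ℕ) (y v : A) :
    (Lop (lmul b) ^ n) (y * v) = (Lop (lmul b) ^ n) y * v := by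
  rw [← sub_cseq, ← sub_cseq, sub_mul, mul_assoc]

end Approx

/-- the main estimate -/
theorem le_of_mem_Cu {f : A →ₗ[ℂ] ℂ} (hf : IsTrace f) {M : ℝ}
    (hM : ∀ c ∈ Cs f, ∀ z ∈ Cu A, ‖f (c * z)‖ ≤ M * ‖z‖) {z : A} (hz : z ∈ Cu A) :
    ‖f z‖ ≤ M * ‖z‖ := by
  -- write `z` as a finite sum of triple products
  obtain ⟨n, x, w, v, hzs⟩ : ∃ (n : ℕ) (x w v : Fin n → A), z = ∑ j, x j * w j * v j := by
    refine Submodule.span_induction (p := fun z _ => ∃ (n : ℕ) (x w v : Fin n → A),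
      z = ∑ j, x j * w j * v j) ?_ ?_ ?_ ?_ hz
    · rintro _ ⟨a, b, c, rfl⟩
      exact ⟨1, fun _ => a, fun _ => b, fun _ => c, by simp⟩
    · exact ⟨0, fun _ => 0, fun _ => 0, fun _ => 0, by simp⟩
    · rintro z1 z2 _ _ ⟨n1, x1, w1, v1, rfl⟩ ⟨n2, x2, w2, v2, rfl⟩
      refine ⟨n1 + n2, Fin.append x1 x2, Fin.append w1 w2, Fin.append v1 v2, ?_⟩
      rw [Fin.sum_univ_add]
      simp
    · rintro r z1 _ ⟨n1, x1, w1, v1, rfl⟩
      refine ⟨n1, fun j => r • x1 j, w1, v1, ?_⟩
      rw [Finset.smul_sum]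
      simp only [smul_mul_assoc]
  set b : A := ∑ j, x j * star (x j) with hb
  have hbs : star b = b := by
    rw [hb, star_sum]
    refine Finset.sum_congr rfl fun j _ => ?_
    rw [star_mul, star_star]
  set R : ℝ := ‖b‖ + 1 with hR
  have hRpos : 0 < R := by positivity
  set β : A := ((R⁻¹ : ℝ) : ℂ) • b with hβ
  have hβs : star β = β := by
    rw [hβ, star_smul, hbs]
    congr 1
    simp
  have hβm : β ∈ Sq A := by
    refine Submodule.smul_mem _ _ (Submodule.sum_mem _ fun j _ => mul_mem_Sq _ _)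
  have hB := psd_of_isPositive hf.1
  -- positivity of single terms
  have hterm : ∀ (j : Fin n) (y : A), (f (star y * ((x j * star (x j)) * y))).re =
      q f (star (x j) * y) := by
    intro j y
    rw [q, star_mul, star_star]
    simp only [mul_assoc]
  have hsumb : ∀ y : A, (f (star y * (b * y))).re = ∑ j, q f (star (x j) * y) := by
    intro y
    rw [hb, Finset.sum_mul, Finset.mul_sum, map_sum, Complex.re_sum]
    exact Finset.sum_congr rfl fun j _ => hterm j y
  have hT : ∀ y : A, (f (star y * (lmul β y))).re = R⁻¹ * ∑ j, q f (star (x j) * y) := by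
    intro y
    change (f (star y * (β * y))).re = _
    rw [hβ, smul_mul_assoc, mul_smul_comm, map_smul, smul_eq_mul, Complex.re_ofReal_mul, hsumb]
  have hsym : ∀ y z : A, f (star (lmul β y) * z) = f (star y * lmul β z) := by
    intro y z
    change f (star (β * y) * z) = f (star y * (β * z))
    rw [star_mul, hβs, mul_assoc]
  have h0 : ∀ y : A, 0 ≤ (f (star y * (lmul β y))).re := by
    intro y
    rw [hT]
    exact mul_nonneg (by positivity) (Finset.sum_nonneg fun j _ => q_nonneg hf.1 _)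
  have h1 : ∀ y : A, (f (star y * (lmul β y))).re ≤ (f (star y * y)).re := by
    intro y
    rw [hT, ← hsumb, inv_mul_le_iff₀ hRpos]
    have h2 := bound_herm_mul hf.1 hbs y
    have h3 := Complex.re_le_norm (f (star y * (b * y)))
    have h4 := q_nonneg hf.1 y
    have h5 : (f (star y * y)).re * ‖b‖ ≤ R * (f (star y * y)).re := by
      rw [mul_comm]
      exact mul_le_mul_of_nonneg_right (by rw [hR]; linarith) h4
    linarith
  -- the even approximants are contractions
  have hcs : ∀ m : ℕ, cseq β (m + m) ∈ Cs f := by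
    intro m
    refine ⟨cseq_mem β hβm _, fun y => ?_⟩
    have h2 := one_sub_Lop_contr hB (lmul β) hsym h0 h1 m y
    rw [← sub_cseq, sub_sub_cancel] at h2
    exact h2
  -- convergence
  have hconv : ∀ j : Fin n, Tendsto (fun m : ℕ => f ((Lop (lmul β) ^ m) (x j * w j * v j)))
      atTop (𝓝 0) := by
    intro j
    have hLt := Lop_tendsto hB (lmul β) hsym h0 h1 (star (v j))
    have hbd : ∀ m : ℕ, ‖f ((Lop (lmul β) ^ m) (x j * w j * v j))‖ ^ 2 ≤
        (R * (f (star ((Lop (lmul β) ^ m) (star (v j))) *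
          (lmul β ((Lop (lmul β) ^ m) (star (v j)))))).re) * q f (w j) := by
      intro m
      have e1 : f ((Lop (lmul β) ^ m) (x j * w j * v j)) =
          f (star (star (x j) * (Lop (lmul β) ^ m) (star (v j))) * w j) := by
        rw [pow_Lop_mul, hf.2]
        have e2 := Lop_symm hB (lmul β) hsym m (star (v j)) (x j * w j)
        rw [star_star] at e2
        rw [← e2, star_mul, star_star]
        simp only [mul_assoc]
      rw [e1]
      refine (hB.cs _ _).trans ?_
      refine mul_le_mul_of_nonneg_right ?_ (q_nonneg hf.1 _)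
      have h2 := hT ((Lop (lmul β) ^ m) (star (v j)))
      rw [h2, mul_inv_cancel_left₀ hRpos.ne']
      change q f (star (x j) * (Lop (lmul β) ^ m) (star (v j))) ≤ _
      exact Finset.single_le_sum
        (f := fun i => q f (star (x i) * (Lop (lmul β) ^ m) (star (v j))))
        (fun i _ => q_nonneg hf.1 _) (Finset.mem_univ j)
    have h3 : Tendsto (fun m : ℕ => (R * (f (star ((Lop (lmul β) ^ m) (star (v j))) *
          (lmul β ((Lop (lmul β) ^ m) (star (v j)))))).re) * q f (w j)) atTop (𝓝 0) := by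
      have := (hLt.const_mul R).mul_const (q f (w j))
      simpa using this
    have h4 : Tendsto (fun m : ℕ => ‖f ((Lop (lmul β) ^ m) (x j * w j * v j))‖ ^ 2)
        atTop (𝓝 0) :=
      squeeze_zero (fun m => by positivity) hbd h3
    have h5 := h4.sqrt
    simp only [Real.sqrt_sq (norm_nonneg _), Real.sqrt_zero] at h5
    exact tendsto_zero_iff_norm_tendsto_zero.2 h5
  have hconv2 : Tendsto (fun m : ℕ => f (cseq β m * z)) atTop (𝓝 (f z)) := by
    have h2 : Tendsto (fun m : ℕ => f z - ∑ j, f ((Lop (lmul β) ^ m) (x j * w j * v j)))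
        atTop (𝓝 (f z - ∑ _j : Fin n, 0)) :=
      tendsto_const_nhds.sub (tendsto_finsetSum _ fun j _ => hconv j)
    rw [Finset.sum_const_zero, sub_zero] at h2
    refine h2.congr fun m => ?_
    rw [← map_sum, ← map_sum, ← hzs, ← sub_cseq, map_sub, sub_sub_cancel]
  have hconv3 : Tendsto (fun m : ℕ => f (cseq β (m + m) * z)) atTop (𝓝 (f z)) :=
    hconv2.comp (tendsto_atTop_mono (fun m => Nat.le_add_right m m) tendsto_id)
  exact le_of_tendsto' hconv3.norm fun m => hM _ (hcs m) z hz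

/-- a functional bounded on a closed cofinite subspace is continuous -/
theorem continuous_of_cofinite {X : Type*} [NormedAddCommGroup X] [NormedSpace ℂ X]
    [CompleteSpace X] (W : Submodule ℂ X) (hW : IsClosed (W : Set X))
    (hfin : FiniteDimensional ℂ (X ⧸ W)) (f : X →ₗ[ℂ] ℂ) {M : ℝ}
    (hM : ∀ z ∈ W, ‖f z‖ ≤ M * ‖z‖) : Continuous f := by
  obtain ⟨p, hp⟩ := Submodule.ClosedComplemented.of_finiteDimensional_quotient hW
  let g : W →L[ℂ] ℂ := LinearMap.mkContinuous (f ∘ₗ W.subtype) M (fun z => hM z z.2)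
  let r : X →ₗ[ℂ] ℂ := f - (g.toLinearMap ∘ₗ p.toLinearMap)
  have hr : W ≤ LinearMap.ker r := by
    intro z hz
    rw [LinearMap.mem_ker]
    change f z - g (p z) = 0
    have h1 : p z = ⟨z, hz⟩ := hp ⟨z, hz⟩
    rw [h1]
    change f z - f z = 0
    rw [sub_self]
  let r' : (X ⧸ W) →ₗ[ℂ] ℂ := W.liftQ r hr
  have : IsClosed (W : Set X) := hW
  have h2 : Continuous r' := LinearMap.continuous_of_finiteDimensional r'
  have h3 : Continuous r := by
    have : (r : X → ℂ) = r' ∘ W.mkQ := by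
      ext x
      simp [r']
    rw [this]
    exact h2.comp continuous_quot_mk
  have h4 : (f : X → ℂ) = fun x => r x + g (p x) := by
    ext x
    change f x = f x - g (p x) + g (p x)
    rw [sub_add_cancel]
  rw [h4]
  exact h3.add (g.continuous.comp p.continuous)

/-- **Traces are continuous if the cube is closed and cofinite** -/
theorem trace_continuous_of_Cu {f : A →ₗ[ℂ] ℂ} (hf : IsTrace f)
    (hcl : IsClosed (Cu A : Set A)) (hfin : FiniteDimensional ℂ (A ⧸ Cu A)) : Continuous f := by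
  obtain ⟨M, hM⟩ := uniform_bound hf hcl
  exact continuous_of_cofinite (Cu A) hcl hfin f (fun z hz => le_of_mem_Cu hf hM hz)

omit [CompleteSpace A] [StarRing A] [StarModule ℂ A] in
theorem Cu_eq_top (h : Sq A = ⊤) : Cu A = ⊤ := by
  rw [eq_top_iff, ← h]
  refine Submodule.span_le.2 ?_
  rintro _ ⟨a, b, rfl⟩
  exact mul_mem_Cu_left (by rw [h]; exact Submodule.mem_top) b

/-- **Traces are continuous if `A = A²`** -/
theorem trace_continuous_of_Sq {f : A →ₗ[ℂ] ℂ} (hf : IsTrace f) (h : Sq A = ⊤) :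
    Continuous f := by
  have h1 := Cu_eq_top h
  refine trace_continuous_of_Cu hf ?_ ?_
  · rw [h1]; exact isClosed_univ
  · rw [h1]; infer_instance

omit [CompleteSpace A] [StarRing A] [StarModule ℂ A] in
theorem cofinite_Cu (h : FiniteDimensional ℂ (A ⧸ Sq A)) : FiniteDimensional ℂ (A ⧸ Cu A) := by
  obtain ⟨F, hF⟩ := Submodule.exists_isCompl (Sq A)
  have hFfin : FiniteDimensional ℂ F :=
    LinearEquiv.finiteDimensional (Submodule.quotientEquivOfIsCompl (Sq A) F hF)
  have hFG : F.FG := (Submodule.fg_iff_finiteDimensional F).2 hFfin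
  set G : Submodule ℂ A := F ⊔ Submodule.map₂ (LinearMap.mul ℂ A) F F with hG
  have hGG : G.FG := hFG.sup (hFG.map₂ _ hFG)
  have hGfin : FiniteDimensional ℂ G := (Submodule.fg_iff_finiteDimensional G).1 hGG
  have hSq : Sq A ≤ Cu A ⊔ G := by
    refine Submodule.span_le.2 ?_
    rintro _ ⟨a, b, rfl⟩
    have ha : a ∈ Sq A ⊔ F := by rw [hF.sup_eq_top]; exact Submodule.mem_top
    have hb : b ∈ Sq A ⊔ F := by rw [hF.sup_eq_top]; exact Submodule.mem_top
    obtain ⟨a1, ha1, a2, ha2, rfl⟩ := Submodule.mem_sup.1 ha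
    obtain ⟨b1, hb1, b2, hb2, rfl⟩ := Submodule.mem_sup.1 hb
    have e : (a1 + a2) * (b1 + b2) = (a1 * (b1 + b2) + a2 * b1) + a2 * b2 := by
      rw [add_mul, mul_add a2, add_assoc]
    rw [e]
    refine Submodule.add_mem_sup (add_mem (mul_mem_Cu_left ha1 _) (mul_mem_Cu_right hb1 _)) ?_
    refine Submodule.mem_sup_right ?_
    exact Submodule.apply_mem_map₂ (LinearMap.mul ℂ A) ha2 hb2
  have htop : Cu A ⊔ G = ⊤ := by
    rw [eq_top_iff, ← hF.sup_eq_top]
    exact sup_le hSq (le_sup_left.trans le_sup_right)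
  refine Module.Finite.of_surjective ((Cu A).mkQ ∘ₗ G.subtype) ?_
  intro y
  obtain ⟨y, rfl⟩ := (Cu A).mkQ_surjective y
  have hy : y ∈ Cu A ⊔ G := by rw [htop]; exact Submodule.mem_top
  obtain ⟨c, hc, g, hg, rfl⟩ := Submodule.mem_sup.1 hy
  refine ⟨⟨g, hg⟩, ?_⟩
  change (Cu A).mkQ g = (Cu A).mkQ (c + g)
  rw [map_add, (Submodule.Quotient.mk_eq_zero (Cu A) (x := c)).2 hc |> fun h => (h : (Cu A).mkQ c = 0),
    zero_add]

omit [StarRing A] [StarModule ℂ A] in
theorem isClosed_Cu [TopologicalSpace.SeparableSpace A] (h : FiniteDimensional ℂ (A ⧸ Sq A)) :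
    IsClosed (Cu A : Set A) := by
  have : SecondCountableTopology A := UniformSpace.secondCountable_of_separable A
  have htop : MeasureTheory.AnalyticSet ((⊤ : Submodule ℂ A) : Set A) := by
    exact isClosed_univ.analyticSet
  have h1 := analytic_span_mul A ⊤ ⊤ htop htop
  have e1 : Submodule.span ℂ {x | ∃ a ∈ (⊤ : Submodule ℂ A), ∃ b ∈ (⊤ : Submodule ℂ A),
      x = a * b} = Sq A := by
    unfold Sq
    congr 1
    ext x
    simp
  rw [e1] at h1
  have h2 := analytic_span_mul A (Sq A) ⊤ h1 htop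
  have e2 : Submodule.span ℂ {x | ∃ a ∈ Sq A, ∃ b ∈ (⊤ : Submodule ℂ A), x = a * b} = Cu A := by
    apply le_antisymm
    · refine Submodule.span_le.2 ?_
      rintro _ ⟨a, ha, b, _, rfl⟩
      exact mul_mem_Cu_left ha b
    · refine Submodule.span_le.2 ?_
      rintro _ ⟨a, b, c, rfl⟩
      exact Submodule.subset_span ⟨a * b, mul_mem_Sq a b, c, Submodule.mem_top, rfl⟩
  rw [e2] at h2
  exact isClosed_of_analytic_cofinite (Cu A) h2 (cofinite_Cu h)

/-- **Traces are continuous if `A` is separable and `A²` is cofinite** -/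
theorem trace_continuous_of_separable [TopologicalSpace.SeparableSpace A] {f : A →ₗ[ℂ] ℂ}
    (hf : IsTrace f) (h : FiniteDimensional ℂ (A ⧸ Sq A)) : Continuous f :=
  trace_continuous_of_Cu hf (isClosed_Cu h) (cofinite_Cu h)

end Pool.Agent.Work.MP_10b086_an
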