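import Mathlib

/-!
# A Banach *-algebra `ℂ × E × E × Z` from a bilinear map
-/

namespace Pool.Agent.Work.MP_10b086_an

noncomputable section

/-- The data of the construction. -/
structure Dat (E Z : Type) [NormedAddCommGroup E] [NormedSpace ℂ E]
    [NormedAddCommGroup Z] [NormedSpace ℂ Z] where
  /-- the bilinear map -/
  B : E → E → Z
  ha₁ : ∀ x y z, B (x + y) z = B x z + B y z
  ha₂ : ∀ x y z, B x (y + z) = B x y + B x z
  hs₁ : ∀ (c : ℂ) x y, B (c • x) y = c • B x y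
  hs₂ : ∀ (c : ℂ) x y, B x (c • y) = c • B x y
  hB : ∀ x y, ‖B x y‖ ≤ ‖x‖ * ‖y‖
  /-- the involution of `E` -/
  jE : E → E
  /-- the involution of `Z` -/
  jZ : Z → Z
  hEa : ∀ x y, jE (x + y) = jE x + jE y
  hEs : ∀ (c : ℂ) x, jE (c • x) = (starRingEnd ℂ) c • jE x
  hEi : ∀ x, jE (jE x) = x
  hEn : ∀ x, ‖jE x‖ = ‖x‖
  hZa : ∀ x y, jZ (x + y) = jZ x + jZ y
  hZs : ∀ (c : ℂ) x, jZ (c • x) = (starRingEnd ℂ) c • jZ x
  hZi : ∀ x, jZ (jZ x) = x
  hZn : ∀ x, ‖jZ x‖ = ‖x‖
  hj : ∀ x y, jZ (B x y) = B (jE y) (jE x)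

variable {E Z : Type} [NormedAddCommGroup E] [NormedSpace ℂ E]
    [NormedAddCommGroup Z] [NormedSpace ℂ Z]

/-- The carrier of the algebra. -/
def Alg (_ : Dat E Z) : Type := WithLp 1 (ℂ × WithLp 1 (E × WithLp 1 (E × Z)))

instance (D : Dat E Z) : NormedAddCommGroup (Alg D) :=
  inferInstanceAs (NormedAddCommGroup (WithLp 1 (ℂ × WithLp 1 (E × WithLp 1 (E × Z)))))

instance (D : Dat E Z) : NormedSpace ℂ (Alg D) :=
  inferInstanceAs (NormedSpace ℂ (WithLp 1 (ℂ × WithLp 1 (E × WithLp 1 (E × Z)))))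

instance (D : Dat E Z) [CompleteSpace E] [CompleteSpace Z] : CompleteSpace (Alg D) :=
  inferInstanceAs (CompleteSpace (WithLp 1 (ℂ × WithLp 1 (E × WithLp 1 (E × Z)))))

namespace Alg

variable {D : Dat E Z}

/-- constructor -/
def mk (l : ℂ) (e u : E) (z : Z) : Alg D :=
  WithLp.toLp 1 (l, WithLp.toLp 1 (e, WithLp.toLp 1 (u, z)))

/-- scalar coordinate -/
def l (x : Alg D) : ℂ :=
  WithLp.fst (show WithLp 1 (ℂ × WithLp 1 (E × WithLp 1 (E × Z))) from x)

/-- remaining coordinates -/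
def r1 (x : Alg D) : WithLp 1 (E × WithLp 1 (E × Z)) :=
  WithLp.snd (show WithLp 1 (ℂ × WithLp 1 (E × WithLp 1 (E × Z))) from x)

/-- first vector coordinate -/
def e (x : Alg D) : E := (r1 x).fst

/-- remaining coordinates -/
def r2 (x : Alg D) : WithLp 1 (E × Z) := (r1 x).snd

/-- second vector coordinate -/
def u (x : Alg D) : E := (r2 x).fst

/-- third vector coordinate -/
def z (x : Alg D) : Z := (r2 x).snd

@[simp] theorem l_mk (l : ℂ) (e u : E) (z : Z) : (mk l e u z : Alg D).l = l := rfl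
@[simp] theorem e_mk (l : ℂ) (e u : E) (z : Z) : (mk l e u z : Alg D).e = e := rfl
@[simp] theorem u_mk (l : ℂ) (e u : E) (z : Z) : (mk l e u z : Alg D).u = u := rfl
@[simp] theorem z_mk (l : ℂ) (e u : E) (z : Z) : (mk l e u z : Alg D).z = z := rfl

theorem mk_eta (x : Alg D) : mk x.l x.e x.u x.z = x := rfl

theorem ext {x y : Alg D} (h1 : x.l = y.l) (h2 : x.e = y.e) (h3 : x.u = y.u) (h4 : x.z = y.z) :
    x = y := by
  rw [← mk_eta x, ← mk_eta y, h1, h2, h3, h4]

@[simp] theorem l_add (x y : Alg D) : (x + y).l = x.l + y.l := rfl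
@[simp] theorem e_add (x y : Alg D) : (x + y).e = x.e + y.e := rfl
@[simp] theorem u_add (x y : Alg D) : (x + y).u = x.u + y.u := rfl
@[simp] theorem z_add (x y : Alg D) : (x + y).z = x.z + y.z := rfl
@[simp] theorem l_smul (c : ℂ) (x : Alg D) : (c • x).l = c * x.l := rfl
@[simp] theorem e_smul (c : ℂ) (x : Alg D) : (c • x).e = c • x.e := rfl
@[simp] theorem u_smul (c : ℂ) (x : Alg D) : (c • x).u = c • x.u := rfl
@[simp] theorem z_smul (c : ℂ) (x : Alg D) : (c • x).z = c • x.z := rfl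
@[simp] theorem l_zero : (0 : Alg D).l = 0 := rfl
@[simp] theorem e_zero : (0 : Alg D).e = 0 := rfl
@[simp] theorem u_zero : (0 : Alg D).u = 0 := rfl
@[simp] theorem z_zero : (0 : Alg D).z = 0 := rfl

theorem norm_eq (x : Alg D) : ‖x‖ = ‖x.l‖ + (‖x.e‖ + (‖x.u‖ + ‖x.z‖)) := by
  have h1 : ‖x‖ = ‖x.l‖ + ‖x.r1‖ := WithLp.prod_norm_eq_of_L1 _
  have h2 : ‖x.r1‖ = ‖x.e‖ + ‖x.r2‖ := WithLp.prod_norm_eq_of_L1 _
  have h3 : ‖x.r2‖ = ‖x.u‖ + ‖x.z‖ := WithLp.prod_norm_eq_of_L1 _
  rw [h1, h2, h3]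

theorem B_zero_left (D : Dat E Z) (x : E) : D.B 0 x = 0 := by
  have := D.hs₁ 0 0 x
  simpa using this

theorem B_zero_right (D : Dat E Z) (x : E) : D.B x 0 = 0 := by
  have := D.hs₂ 0 x 0
  simpa using this

theorem jE_zero (D : Dat E Z) : D.jE 0 = 0 := by
  have := D.hEs 0 0
  simpa using this

instance : Mul (Alg D) :=
  ⟨fun x y => mk (x.l * y.l) (x.l • y.e) (y.l • x.u) (D.B x.u y.e)⟩

@[simp] theorem l_mul (x y : Alg D) : (x * y).l = x.l * y.l := rfl
@[simp] theorem e_mul (x y : Alg D) : (x * y).e = x.l • y.e := rfl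
@[simp] theorem u_mul (x y : Alg D) : (x * y).u = y.l • x.u := rfl
@[simp] theorem z_mul (x y : Alg D) : (x * y).z = D.B x.u y.e := rfl

instance instRing : NonUnitalNormedRing (Alg D) :=
  { (inferInstance : NormedAddCommGroup (Alg D)) with
    mul := fun x y => x * y
    left_distrib := fun a b c => by
      apply ext <;> simp [mul_add, add_smul, D.ha₂]
    right_distrib := fun a b c => by
      apply ext <;> simp [add_mul, add_smul, D.ha₁]
    zero_mul := fun a => by
      apply ext <;> simp [B_zero_left]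
    mul_zero := fun a => by
      apply ext <;> simp [B_zero_right]
    mul_assoc := fun a b c => by
      apply ext
      · simp [mul_assoc]
      · simp [mul_smul]
      · simp only [u_mul, l_mul, mul_smul]
        rw [smul_comm]
      · simp [D.hs₁, D.hs₂]
    norm_mul_le := fun a b => by
      rw [norm_eq, norm_eq, norm_eq]
      simp only [l_mul, e_mul, u_mul, z_mul, norm_mul, norm_smul]
      have h := D.hB a.u b.e
      have h1 := norm_nonneg a.l
      have h2 := norm_nonneg a.e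
      have h3 := norm_nonneg a.u
      have h4 := norm_nonneg a.z
      have k1 := norm_nonneg b.l
      have k2 := norm_nonneg b.e
      have k3 := norm_nonneg b.u
      have k4 := norm_nonneg b.z
      nlinarith [mul_nonneg h1 k3, mul_nonneg h1 k4, mul_nonneg h2 k1, mul_nonneg h2 k2,
        mul_nonneg h2 k3, mul_nonneg h2 k4, mul_nonneg h3 k3, mul_nonneg h3 k4,
        mul_nonneg h4 k1, mul_nonneg h4 k2, mul_nonneg h4 k3, mul_nonneg h4 k4] }

instance : StarRing (Alg D) where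
  star x := mk ((starRingEnd ℂ) x.l) (D.jE x.u) (D.jE x.e) (D.jZ x.z)
  star_involutive x := by
    apply ext
    · exact Complex.conj_conj _
    · exact D.hEi _
    · exact D.hEi _
    · exact D.hZi _
  star_mul x y := by
    apply ext
    · change (starRingEnd ℂ) (x.l * y.l) = (starRingEnd ℂ) y.l * (starRingEnd ℂ) x.l
      rw [map_mul, mul_comm]
    · change D.jE (y.l • x.u) = (starRingEnd ℂ) y.l • D.jE x.u
      exact D.hEs _ _
    · change D.jE (x.l • y.e) = (starRingEnd ℂ) x.l • D.jE y.e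
      exact D.hEs _ _
    · change D.jZ (D.B x.u y.e) = D.B (D.jE y.e) (D.jE x.u)
      exact D.hj _ _
  star_add x y := by
    apply ext
    · exact map_add _ _ _
    · exact D.hEa _ _
    · exact D.hEa _ _
    · exact D.hZa _ _

@[simp] theorem l_star (x : Alg D) : (star x).l = (starRingEnd ℂ) x.l := rfl
@[simp] theorem e_star (x : Alg D) : (star x).e = D.jE x.u := rfl
@[simp] theorem u_star (x : Alg D) : (star x).u = D.jE x.e := rfl
@[simp] theorem z_star (x : Alg D) : (star x).z = D.jZ x.z := rfl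

theorem norm_star' (x : Alg D) : ‖star x‖ = ‖x‖ := by
  rw [norm_eq, norm_eq]
  simp only [l_star, e_star, u_star, z_star, D.hEn, D.hZn, Complex.norm_conj]
  ring

instance : ContinuousStar (Alg D) where
  continuous_star := by
    have h : Isometry (starAddEquiv : Alg D ≃+ Alg D) :=
      AddMonoidHomClass.isometry_of_norm _ norm_star'
    exact h.continuous

instance : StarModule ℂ (Alg D) where
  star_smul c x := by
    apply ext
    · change (starRingEnd ℂ) (c * x.l) = (starRingEnd ℂ) c * (starRingEnd ℂ) x.l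
      exact map_mul _ _ _
    · exact D.hEs _ _
    · exact D.hEs _ _
    · exact D.hZs _ _

instance : IsScalarTower ℂ (Alg D) (Alg D) where
  smul_assoc c x y := by
    apply ext
    · simp [mul_assoc]
    · simp [mul_smul]
    · simp only [smul_eq_mul, u_mul, u_smul]
      rw [smul_comm]
    · simp [D.hs₁]

instance : SMulCommClass ℂ (Alg D) (Alg D) where
  smul_comm c x y := by
    apply ext
    · simp [mul_left_comm]
    · simp only [smul_eq_mul, e_mul, e_smul]
      rw [smul_comm]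
    · simp [mul_smul]
    · simp [D.hs₂]

/-- the inclusion of `Z` -/
def incl (D : Dat E Z) : Z →ₗ[ℂ] Alg D where
  toFun z := mk 0 0 0 z
  map_add' x y := by apply ext <;> simp
  map_smul' c x := by apply ext <;> simp

/-- the projection to `Z` -/
def proj (D : Dat E Z) : Alg D →ₗ[ℂ] Z where
  toFun x := x.z
  map_add' _ _ := rfl
  map_smul' _ _ := rfl

theorem norm_incl (z : Z) : ‖incl D z‖ = ‖z‖ := by
  rw [norm_eq]
  simp [incl]

theorem continuous_incl : Continuous (incl D) :=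
  (AddMonoidHomClass.isometry_of_norm (incl D) norm_incl).continuous

theorem span_eq (hspan : Submodule.span ℂ {z : Z | ∃ x y : E, z = D.B x y} = ⊤) :
    Submodule.span ℂ {x : Alg D | ∃ a b : Alg D, x = a * b} = ⊤ := by
  rw [eq_top_iff]
  intro x _
  have hx : x = (mk 1 0 0 0 : Alg D) * mk x.l x.e 0 0 + mk 0 0 x.u 0 * (mk 1 0 0 0 : Alg D) +
      incl D x.z := by
    apply ext <;> simp [incl, B_zero_left, B_zero_right]
  rw [hx]
  refine Submodule.add_mem _ (Submodule.add_mem _ ?_ ?_) ?_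
  · exact Submodule.subset_span ⟨_, _, rfl⟩
  · exact Submodule.subset_span ⟨_, _, rfl⟩
  · have h1 : x.z ∈ Submodule.span ℂ {z : Z | ∃ x y : E, z = D.B x y} := by
      rw [hspan]; trivial
    have h2 : Submodule.span ℂ {z : Z | ∃ x y : E, z = D.B x y} ≤
        (Submodule.span ℂ {x : Alg D | ∃ a b : Alg D, x = a * b}).comap (incl D) := by
      rw [Submodule.span_le]
      rintro _ ⟨x, y, rfl⟩
      refine Submodule.subset_span ⟨mk 0 0 x 0, mk 0 y 0 0, ?_⟩
      apply ext <;> simp [incl]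
    exact h2 h1

end Alg

theorem exists_algebra {E Z : Type} [NormedAddCommGroup E] [NormedSpace ℂ E] [CompleteSpace E]
    [NormedAddCommGroup Z] [NormedSpace ℂ Z] [CompleteSpace Z] (B : E → E → Z)
    (ha₁ : ∀ x y z, B (x + y) z = B x z + B y z) (ha₂ : ∀ x y z, B x (y + z) = B x y + B x z)
    (hs₁ : ∀ (c : ℂ) x y, B (c • x) y = c • B x y) (hs₂ : ∀ (c : ℂ) x y, B x (c • y) = c • B x y)
    (hB : ∀ x y, ‖B x y‖ ≤ ‖x‖ * ‖y‖) (jE : E → E) (jZ : Z → Z)
    (hEa : ∀ x y, jE (x + y) = jE x + jE y) (hEs : ∀ (c : ℂ) x, jE (c • x) = (starRingEnd ℂ) c • jE x)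
    (hEi : ∀ x, jE (jE x) = x) (hEn : ∀ x, ‖jE x‖ = ‖x‖)
    (hZa : ∀ x y, jZ (x + y) = jZ x + jZ y) (hZs : ∀ (c : ℂ) x, jZ (c • x) = (starRingEnd ℂ) c • jZ x)
    (hZi : ∀ x, jZ (jZ x) = x) (hZn : ∀ x, ‖jZ x‖ = ‖x‖)
    (hj : ∀ x y, jZ (B x y) = B (jE y) (jE x))
    (hspan : Submodule.span ℂ {z : Z | ∃ x y : E, z = B x y} = ⊤)
    (F : Z →ₗ[ℂ] ℂ) (hF : ∀ x, 0 ≤ (F (B (jE x) x)).re ∧ (F (B (jE x) x)).im = 0)
    (hdisc : ¬ Continuous F) :
    ∃ (A : Type) (_ : NonUnitalNormedRing A) (_ : NormedSpace ℂ A) (_ : IsScalarTower ℂ A A)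
      (_ : SMulCommClass ℂ A A) (_ : CompleteSpace A) (_ : StarRing A) (_ : StarModule ℂ A)
      (_ : ContinuousStar A), Submodule.span ℂ {x : A | ∃ a b : A, x = a * b} = ⊤ ∧
      ∃ f : A →ₗ[ℂ] ℂ, (∀ a : A, 0 ≤ (f (star a * a)).re ∧ (f (star a * a)).im = 0) ∧ ¬ Continuous f := by
  let D : Dat E Z :=
    { B := B, ha₁ := ha₁, ha₂ := ha₂, hs₁ := hs₁, hs₂ := hs₂, hB := hB, jE := jE, jZ := jZ,
      hEa := hEa, hEs := hEs, hEi := hEi, hEn := hEn, hZa := hZa, hZs := hZs, hZi := hZi,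
      hZn := hZn, hj := hj }
  refine ⟨Alg D, inferInstance, inferInstance, inferInstance, inferInstance, inferInstance,
    inferInstance, inferInstance, inferInstance, Alg.span_eq hspan, F ∘ₗ Alg.proj D, ?_, ?_⟩
  · intro a
    exact hF a.e
  · intro hc
    apply hdisc
    have h1 : (F : Z → ℂ) = (F ∘ₗ Alg.proj D) ∘ Alg.incl D := rfl
    rw [h1]
    exact hc.comp Alg.continuous_incl

end

end Pool.Agent.Work.MP_10b086_an
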