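import Mathlib

/-!
# MP_10b086_an: index set of order type `c` with cofinally repeated enumerations (helper56)
-/

namespace Pool.Agent.Work.MP_10b086_an

open Cardinal in
theorem exists_index : ∃ (I : Type) (_ : LinearOrder I) (_ : WellFoundedLT I), #I = 𝔠 ∧
    ∀ (Z : Type), #Z ≤ 𝔠 → Nonempty Z → ∃ z : I → Z, ∀ (x : Z) (S : Set I), S.Countable →
      ∃ a : I, (∀ s ∈ S, s < a) ∧ z a = x := by
  refine ⟨(Cardinal.continuum.{0}).ord.ToType, inferInstance, inferInstance,
    Cardinal.mk_ord_toType _, ?_⟩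
  intro Z hZ hne
  have hI : #((Cardinal.continuum.{0}).ord.ToType) = 𝔠 := Cardinal.mk_ord_toType _
  have hprod : #((Cardinal.continuum.{0}).ord.ToType) =
      #((Cardinal.continuum.{0}).ord.ToType × Z) := by
    rw [Cardinal.mk_prod, Cardinal.lift_id, Cardinal.lift_id, hI]
    symm
    apply Cardinal.mul_eq_left Cardinal.aleph0_le_continuum hZ
    exact Cardinal.mk_ne_zero_iff.mpr hne
  obtain ⟨e⟩ := Cardinal.eq.mp hprod
  refine ⟨fun a => (e a).2, ?_⟩
  intro x S hS
  have hcof : ℵ₀ < Order.cof ((Cardinal.continuum.{0}).ord.ToType) := by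
    rw [Ordinal.cof_toType, ← Cardinal.two_power_aleph0]
    exact Cardinal.lt_cof_ord_power le_rfl Cardinal.one_lt_two
  have hnc : ¬ IsCofinal S := by
    intro h
    have h1 := Order.cof_le h
    have h2 : #S ≤ ℵ₀ := Cardinal.le_aleph0_iff_set_countable.mpr hS
    exact absurd (hcof.trans_le (h1.trans h2)) (lt_irrefl _)
  unfold IsCofinal at hnc
  push Not at hnc
  obtain ⟨m, hm⟩ := hnc
  have hfib : ∃ a, (e a).2 = x ∧ m < a := by
    by_contra hcon
    push Not at hcon
    have hlt : #(Set.Iic m) < #((Cardinal.continuum.{0}).ord.ToType) := by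
      apply Cardinal.mk_Iic_lt m
      · rw [hI]
        simp
      · rw [hI]
        exact Cardinal.aleph0_le_continuum
    have hle : #((Cardinal.continuum.{0}).ord.ToType) ≤ #(Set.Iic m) := by
      refine Cardinal.mk_le_of_injective
        (f := fun i => (⟨e.symm (i, x), hcon _ (by simp)⟩ : Set.Iic m)) ?_
      intro i j hij
      have h1 := congrArg Subtype.val hij
      have h2 := e.symm.injective h1
      exact congrArg Prod.fst h2
    exact absurd (hle.trans_lt hlt) (lt_irrefl _)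
  obtain ⟨a, ha1, ha2⟩ := hfib
  exact ⟨a, fun s hs => (hm s hs).trans ha2, ha1⟩

open Cardinal in
theorem card_lp_le {J : Type} (hJ : #J ≤ 𝔠) : #(lp (fun _ : J => ℂ) 1) ≤ 𝔠 := by
  have hcount : ∀ f : lp (fun _ : J => ℂ) 1,
      ({p : J × ℂ | (f : J → ℂ) p.1 = p.2 ∧ p.2 ≠ 0}).Countable := by
    intro f
    have h1 : Summable (fun j => ‖(f : J → ℂ) j‖) := by
      have := lp.memℓp f
      rw [memℓp_gen_iff (by norm_num)] at this
      simpa using this
    have h2 := h1.countable_support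
    have h3 : {p : J × ℂ | (f : J → ℂ) p.1 = p.2 ∧ p.2 ≠ 0} ⊆
        (fun j => (j, (f : J → ℂ) j)) '' Function.support (fun j => ‖(f : J → ℂ) j‖) := by
      rintro ⟨j, c⟩ ⟨h4, h5⟩
      refine ⟨j, ?_, ?_⟩
      · rw [Function.mem_support]
        simp only at h4 h5
        rw [h4]
        exact norm_ne_zero_iff.mpr h5
      · simp only at h4 ⊢
        rw [h4]
    exact (h2.image _).mono h3
  have hex : ∀ f : lp (fun _ : J => ℂ) 1, ∃ g : ℕ → Option (J × ℂ),
      insert none (some '' {p : J × ℂ | (f : J → ℂ) p.1 = p.2 ∧ p.2 ≠ 0}) = Set.range g := by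
    intro f
    exact (((hcount f).image some).insert none).exists_eq_range (Set.insert_nonempty _ _)
  choose g hg using hex
  have hinj : Function.Injective g := by
    intro f f' hff
    have h1 : insert none (some '' {p : J × ℂ | (f : J → ℂ) p.1 = p.2 ∧ p.2 ≠ 0}) =
        insert none (some '' {p : J × ℂ | (f' : J → ℂ) p.1 = p.2 ∧ p.2 ≠ 0}) := by
      rw [hg f, hg f', hff]
    have h2 : ∀ p : J × ℂ, ((f : J → ℂ) p.1 = p.2 ∧ p.2 ≠ 0) ↔
        ((f' : J → ℂ) p.1 = p.2 ∧ p.2 ≠ 0) := by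
      intro p
      have h3 := Set.ext_iff.mp h1 (some p)
      simpa using h3
    apply lp.ext
    funext j
    by_cases hj : (f : J → ℂ) j = 0
    · by_cases hj' : (f' : J → ℂ) j = 0
      · rw [hj, hj']
      · have := (h2 (j, (f' : J → ℂ) j)).mpr ⟨rfl, hj'⟩
        exact this.1
    · have := (h2 (j, (f : J → ℂ) j)).mp ⟨rfl, hj⟩
      exact this.1.symm
  have h1 := Cardinal.mk_le_of_injective hinj
  refine h1.trans ?_
  have h2 : #(Option (J × ℂ)) ≤ 𝔠 := by
    rw [Cardinal.mk_option, Cardinal.mk_prod, Cardinal.lift_id, Cardinal.lift_id,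
      Cardinal.mk_complex]
    calc #J * 𝔠 + 1 ≤ 𝔠 * 𝔠 + 1 := by gcongr
      _ = 𝔠 := by
        rw [Cardinal.continuum_mul_self, Cardinal.add_one_eq Cardinal.aleph0_le_continuum]
  have h3 : #(ℕ → Option (J × ℂ)) = #(Option (J × ℂ)) ^ ℵ₀ := by
    simp
  rw [h3]
  calc #(Option (J × ℂ)) ^ ℵ₀ ≤ 𝔠 ^ ℵ₀ := Cardinal.power_le_power_right h2
    _ = 𝔠 := Cardinal.continuum_power_aleph0

end Pool.Agent.Work.MP_10b086_an
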