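import Pool.Agent.Work.MP_10b086_an.Cex4
import Pool.Agent.Work.MP_10b086_an.Build
import Pool.Agent.Work.MP_10b086_an.Index

/-!
# The counterexample for (H1), (H2): the recursion and the algebra
-/

open Topology Filter Set Cardinal
open scoped ComplexConjugate NNReal ENNReal

namespace Pool.Agent.Work.MP_10b086_an

variable {I : Type} [LinearOrder I]

/-- the subspace `Rs` depends only on the values below `a` -/
theorem Rs_congr {s s' : I → L1 (I × I)} {a : I} (h : ∀ b < a, s b = s' b) :
    Rs s a = Rs s' a := by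
  have key : ∀ x y : L1 I, Below a x → Bil s x y = Bil s' x y := by
    intro x y hx
    unfold Bil
    congr 1
    refine tsum_congr fun b => ?_
    by_cases hb : b < a
    · rw [h b hb]
    · rw [hx b hb, zero_mul, zero_smul, zero_smul]
  unfold Rs
  congr 1
  ext z
  constructor
  · rintro ⟨x, y, hx, hy, rfl⟩
    exact ⟨x, y, hx, hy, key x y hx⟩
  · rintro ⟨x, y, hx, hy, rfl⟩
    exact ⟨x, y, hx, hy, (key x y hx).symm⟩

/-- the condition under which `z` is used at stage `a` -/
def Cond (s : I → L1 (I × I)) (a : I) (z : L1 (I × I)) : Prop :=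
  jZ z = z ∧ ‖z‖ ≤ 1 ∧ (∀ w, z w ≠ 0 → w.1 < a ∧ w.2 < a) ∧ z ∉ Rs s a

open Classical in
theorem exists_sigma [WellFoundedLT I] (D : Set I) (base z : I → L1 (I × I)) :
    ∃ σ : I → L1 (I × I), (∀ a ∈ D, σ a = base a) ∧
      ∀ a ∉ D, σ a = if Cond σ a (z a) then z a else 0 := by
  let F : ∀ a : I, (∀ b : I, b < a → L1 (I × I)) → L1 (I × I) := fun a ih =>
    if a ∈ D then base a else
      if Cond (fun b => if h : b < a then ih b h else 0) a (z a) then z a else 0
  let σ : I → L1 (I × I) := WellFounded.fix (wellFounded_lt (α := I)) F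
  have hσ : ∀ a, σ a = F a (fun b _ => σ b) := fun a => WellFounded.fix_eq _ F a
  refine ⟨σ, fun a ha => ?_, fun a ha => ?_⟩
  · rw [hσ a]
    simp only [F]
    rw [if_pos ha]
  · rw [hσ a]
    simp only [F]
    rw [if_neg ha]
    have h1 : Rs (fun b => if h : b < a then σ b else 0) a = Rs σ a := by
      refine Rs_congr fun b hb => ?_
      simp [hb]
    have h2 : Cond (fun b => if h : b < a then σ b else 0) a (z a) ↔ Cond σ a (z a) := by
      unfold Cond
      rw [h1]
    by_cases h3 : Cond σ a (z a)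
    · rw [if_pos h3, if_pos (h2.2 h3)]
    · rw [if_neg h3, if_neg (fun h => h3 (h2.1 h))]

/-- unit vectors -/
noncomputable def ee (a : I) : L1 I := lp.single 1 a (1 : ℂ)

theorem ee_apply (a b : I) : ee a b = if b = a then 1 else 0 := by
  rw [ee, lp.single_apply, Pi.single_apply]

theorem bil_ee (σ : I → L1 (I × I)) (a : I) : Bil σ (ee a) (ee a) = σ a := by
  have h1 : od (ee a) (ee a) = 0 := by
    refine L1.ext fun w => ?_
    rw [od_apply, ee_apply, ee_apply, L1.zero_apply]
    split_ifs with h2 h3 h4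
    · rfl
    · exact absurd (h3.trans h4.symm) h2
    · simp
    · simp
    · simp
  rw [Bil, h1, zero_add, tsum_eq_single a]
  · rw [ee_apply, if_pos rfl, one_mul, one_smul]
  · intro b hb
    rw [ee_apply, if_neg hb, zero_mul, zero_smul]

omit [LinearOrder I] in
theorem jZ_add (z w : L1 (I × I)) : jZ (z + w) = jZ z + jZ w := by
  refine L1.ext fun v => ?_
  rw [jZ_apply, L1.add_apply, L1.add_apply, map_add, jZ_apply, jZ_apply]

omit [LinearOrder I] in
theorem jZ_smul (c : ℂ) (z : L1 (I × I)) : jZ (c • z) = (starRingEnd ℂ) c • jZ z := by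
  refine L1.ext fun v => ?_
  rw [jZ_apply, L1.smul_apply, L1.smul_apply, map_mul, jZ_apply]

omit [LinearOrder I] in
theorem jZ_jZ (z : L1 (I × I)) : jZ (jZ z) = z := by
  refine L1.ext fun v => ?_
  rw [jZ_apply, jZ_apply, Prod.swap_swap, Complex.conj_conj]

omit [LinearOrder I] in
theorem cj_add (x y : L1 I) : L1.cj (x + y) = L1.cj x + L1.cj y := by
  refine L1.ext fun v => ?_
  rw [L1.cj_apply, L1.add_apply, L1.add_apply, map_add, L1.cj_apply, L1.cj_apply]

omit [LinearOrder I] in
theorem cj_smul (c : ℂ) (x : L1 I) : L1.cj (c • x) = (starRingEnd ℂ) c • L1.cj x := by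
  refine L1.ext fun v => ?_
  rw [L1.cj_apply, L1.smul_apply, L1.smul_apply, map_mul, L1.cj_apply]

omit [LinearOrder I] in
theorem cj_cj (x : L1 I) : L1.cj (L1.cj x) = x := by
  refine L1.ext fun v => ?_
  rw [L1.cj_apply, L1.cj_apply, Complex.conj_conj]

omit [LinearOrder I] in
theorem norm_cj (x : L1 I) : ‖L1.cj x‖ = ‖x‖ := by
  rw [L1.norm_eq, L1.norm_eq]
  simp only [L1.cj_apply, RCLike.norm_conj]

omit [LinearOrder I] in
theorem countable_supp (z : L1 (I × I)) : {w | z w ≠ 0}.Countable := by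
  have := (L1.summable z).countable_support
  refine this.mono fun w hw => ?_
  rw [Function.mem_support]
  exact norm_ne_zero_iff.2 hw

open Classical in
/-- **the bilinear map** -/
theorem exists_bil : ∃ (I : Type) (B : L1 I → L1 I → L1 (I × I)) (F : L1 (I × I) →ₗ[ℂ] ℂ),
    (∀ x y z, B (x + y) z = B x z + B y z) ∧ (∀ x y z, B x (y + z) = B x y + B x z) ∧
    (∀ (c : ℂ) x y, B (c • x) y = c • B x y) ∧ (∀ (c : ℂ) x y, B x (c • y) = c • B x y) ∧
    (∀ x y, ‖B x y‖ ≤ ‖x‖ * ‖y‖) ∧ (∀ x y, jZ (B x y) = B (L1.cj y) (L1.cj x)) ∧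
    Submodule.span ℂ {z | ∃ x y, z = B x y} = ⊤ ∧
    (∀ x, 0 ≤ (F (B (L1.cj x) x)).re ∧ (F (B (L1.cj x) x)).im = 0) ∧ ¬ Continuous F := by
  obtain ⟨I, iL, iW, hcard, henum⟩ := exists_index
  have hIinf : Infinite I := by
    rw [← Cardinal.aleph0_le_mk_iff, hcard]
    exact Cardinal.aleph0_le_continuum
  let d : ℕ → I := Infinite.natEmbedding I
  have hd : Function.Injective d := (Infinite.natEmbedding I).injective
  set D : Set I := range d with hD
  let c : I → ℝ := Function.extend d (fun n => 1 / ((n : ℝ) + 1)) (fun _ => 1)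
  have hcd : ∀ n, c (d n) = 1 / ((n : ℝ) + 1) := fun n => hd.extend_apply _ _ n
  let base : I → L1 (I × I) := fun a => lp.single 1 (a, a) (c a : ℂ)
  have hcardZ : #(L1 (I × I)) ≤ 𝔠 := by
    refine card_lp_le ?_
    rw [Cardinal.mk_prod, Cardinal.lift_id, hcard, Cardinal.continuum_mul_self]
  obtain ⟨z, hz⟩ := henum (L1 (I × I)) hcardZ ⟨0⟩
  obtain ⟨σ, hσD, hσ⟩ := exists_sigma D base z
  have hbase : ∀ n w, σ (d n) w = if w = (d n, d n) then ((1 / ((n : ℝ) + 1) : ℝ) : ℂ) else 0 := by
    intro n w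
    rw [hσD _ (mem_range_self n)]
    simp only [base]
    rw [lp.single_apply, Pi.single_apply, hcd]
  have hG : Good σ D := by
    constructor
    · intro a
      by_cases ha : a ∈ D
      · obtain ⟨n, rfl⟩ := ha
        rw [hσD _ (mem_range_self n)]
        simp only [base]
        rw [lp.norm_single (by norm_num), hcd, Complex.norm_real, Real.norm_of_nonneg (by positivity)]
        rw [div_le_one (by positivity)]
        have : (0 : ℝ) ≤ n := Nat.cast_nonneg n
        linarith
      · rw [hσ a ha]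
        split_ifs with h
        · exact h.2.1
        · simp
    · rintro _ ⟨n, rfl⟩
      refine ⟨((1 / ((n : ℝ) + 1) : ℝ) : ℂ), ?_, hbase n⟩
      rw [Complex.ofReal_ne_zero]
      positivity
    · intro a ha w hw
      rw [hσ a ha] at hw
      split_ifs at hw with h
      · exact h.2.2.1 w hw
      · exact absurd (L1.zero_apply w) hw
    · intro a ha
      rw [hσ a ha]
      split_ifs with h
      · exact Or.inr h.2.2.2
      · exact Or.inl rfl
  have hher : ∀ a, jZ (σ a) = σ a := by
    intro a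
    by_cases ha : a ∈ D
    · obtain ⟨n, rfl⟩ := ha
      refine L1.ext fun w => ?_
      rw [jZ_apply, hbase, hbase]
      by_cases h : w = (d n, d n)
      · rw [if_pos h, if_pos (by rw [h]; rfl), Complex.conj_ofReal]
      · rw [if_neg h, if_neg, map_zero]
        intro h'
        apply h
        have := congrArg Prod.swap h'
        simpa using this
    · rw [hσ a ha]
      split_ifs with h
      · exact h.1
      · refine L1.ext fun w => ?_
        rw [jZ_apply, L1.zero_apply, L1.zero_apply, map_zero]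
  -- the span
  set S : Submodule ℂ (L1 (I × I)) := Submodule.span ℂ {z | ∃ x y, z = Bil σ x y} with hS
  have hher_mem : ∀ h : L1 (I × I), jZ h = h → ‖h‖ ≤ 1 → h ∈ S := by
    intro h hh hn
    obtain ⟨a, ha, hza⟩ := hz h ((Prod.fst '' {w | h w ≠ 0}) ∪ (Prod.snd '' {w | h w ≠ 0}) ∪ D)
      ((((countable_supp h).image _).union ((countable_supp h).image _)).union
        (countable_range d))
    have haD : a ∉ D := fun haD => lt_irrefl a (ha a (Or.inr haD))
    have hsupp : ∀ w, h w ≠ 0 → w.1 < a ∧ w.2 < a := fun w hw =>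
      ⟨ha _ (Or.inl (Or.inl ⟨w, hw, rfl⟩)), ha _ (Or.inl (Or.inr ⟨w, hw, rfl⟩))⟩
    by_cases hR : h ∈ Rs σ a
    · refine Submodule.span_mono ?_ hR
      rintro _ ⟨x, y, _, _, rfl⟩
      exact ⟨x, y, rfl⟩
    · have hcond : Cond σ a (z a) := by
        rw [hza]
        exact ⟨hh, hn, hsupp, hR⟩
      have h1 : σ a = h := by
        rw [hσ a haD, if_pos hcond, hza]
      refine Submodule.subset_span ⟨ee a, ee a, ?_⟩
      rw [bil_ee, h1]
  have hher_mem' : ∀ h : L1 (I × I), jZ h = h → h ∈ S := by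
    intro h hh
    have h1 : ((‖h‖ + 1 : ℝ) : ℂ) ≠ 0 := by
      rw [Complex.ofReal_ne_zero]
      positivity
    have h2 : h = ((‖h‖ + 1 : ℝ) : ℂ) • ((((‖h‖ + 1 : ℝ) : ℂ)⁻¹) • h) := by
      rw [smul_smul, mul_inv_cancel₀ h1, one_smul]
    rw [h2]
    refine Submodule.smul_mem _ _ (hher_mem _ ?_ ?_)
    · rw [jZ_smul, hh]
      congr 1
      rw [map_inv₀, Complex.conj_ofReal]
    · rw [norm_smul, norm_inv, Complex.norm_real, Real.norm_of_nonneg (by positivity),
        inv_mul_le_iff₀ (by positivity)]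
      linarith
  have hspan : S = ⊤ := by
    rw [eq_top_iff]
    intro v _
    have e : v = (1 / 2 : ℂ) • (v + jZ v) + (-Complex.I / 2) • (Complex.I • (v + (-1 : ℂ) • jZ v)) := by
      rw [smul_smul]
      have : -Complex.I / 2 * Complex.I = 1 / 2 := by
        have := Complex.I_mul_I
        linear_combination (-1 / 2) * this
      rw [this]
      module
    rw [e]
    refine Submodule.add_mem _ (Submodule.smul_mem _ _ (hher_mem' _ ?_))
      (Submodule.smul_mem _ _ (hher_mem' _ ?_))
    · rw [jZ_add, jZ_jZ, add_comm]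
    · rw [jZ_smul, jZ_add, jZ_smul, jZ_jZ, Complex.conj_I, map_neg, map_one]
      module
  obtain ⟨F, hF⟩ := exists_functional hG d hd (fun n => mem_range_self n) hspan
  refine ⟨I, Bil σ, F, bil_add_left hG.norm_le, bil_add_right hG.norm_le,
    bil_smul_left hG.norm_le, bil_smul_right hG.norm_le, norm_bil_le hG.norm_le,
    jZ_bil hG.norm_le hher, hspan, fun x => ?_, fun hcont => ?_⟩
  · have h1 : F (Bil σ (L1.cj x) x) = ((∑' n, ‖x (d n)‖ ^ 2 : ℝ) : ℂ) := by
      rw [hF, Complex.ofReal_tsum]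
      refine tsum_congr fun n => ?_
      rw [L1.cj_apply, Complex.conj_mul']
      norm_num
    rw [h1, Complex.ofReal_re, Complex.ofReal_im]
    exact ⟨tsum_nonneg fun n => by positivity, rfl⟩
  · -- boundedness contradicts the values at the diagonal unit vectors
    let G : L1 (I × I) →L[ℂ] ℂ := ⟨F, hcont⟩
    have h1 : ∀ n : ℕ, (n : ℝ) + 1 ≤ ‖G‖ := by
      intro n
      have h2 : F (σ (d n)) = 1 := by
        rw [← bil_ee σ (d n), hF, tsum_eq_single n]
        · rw [ee_apply, if_pos rfl, one_mul]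
        · intro m hm
          rw [ee_apply, if_neg (fun h => hm (hd h)), zero_mul]
      have h3 : ‖σ (d n)‖ = 1 / ((n : ℝ) + 1) := by
        rw [hσD _ (mem_range_self n)]
        simp only [base]
        rw [lp.norm_single (by norm_num), hcd, Complex.norm_real, Real.norm_of_nonneg (by positivity)]
      have h4 := G.le_opNorm (σ (d n))
      have h5 : ‖G (σ (d n))‖ = 1 := by
        change ‖F (σ (d n))‖ = 1
        rw [h2, norm_one]
      rw [h5, h3, mul_one_div, le_div_iff₀ (by positivity), one_mul] at h4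
      exact h4
    obtain ⟨n, hn⟩ := exists_nat_gt ‖G‖
    have := h1 n
    linarith

/-- **A Banach *-algebra with `A = A²`, continuous involution and a discontinuous positive
functional** -/
theorem exists_discontinuous :
    ∃ (A : Type) (_ : NonUnitalNormedRing A) (_ : NormedSpace ℂ A) (_ : IsScalarTower ℂ A A)
      (_ : SMulCommClass ℂ A A) (_ : CompleteSpace A) (_ : StarRing A) (_ : StarModule ℂ A)
      (_ : ContinuousStar A), Submodule.span ℂ {x : A | ∃ a b : A, x = a * b} = ⊤ ∧
      ∃ f : A →ₗ[ℂ] ℂ, (∀ a : A, 0 ≤ (f (star a * a)).re ∧ (f (star a * a)).im = 0) ∧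
        ¬ Continuous f := by
  obtain ⟨I, B, F, h1, h2, h3, h4, h5, h6, h7, h8, h9⟩ := exists_bil
  exact exists_algebra B h1 h2 h3 h4 h5 L1.cj jZ cj_add cj_smul cj_cj norm_cj jZ_add jZ_smul
    jZ_jZ norm_jZ h6 h7 F h8 h9

end Pool.Agent.Work.MP_10b086_an
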