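import Mathlib

/-!
# The counterexample for (H1), (H2): a bilinear map on `ℓ¹`
-/

open Topology Filter Set
open scoped ComplexConjugate NNReal ENNReal

namespace Pool.Agent.Work.MP_10b086_an

/-- `ℓ¹(S)` -/
noncomputable abbrev L1 (S : Type) : Type := lp (fun _ : S => ℂ) 1

section Basic

variable {S : Type}

theorem L1.summable (f : L1 S) : Summable fun s => ‖f s‖ := by
  have := (lp.memℓp f).summable (by norm_num)
  simpa using this

theorem L1.norm_eq (f : L1 S) : ‖f‖ = ∑' s, ‖f s‖ := by
  rw [lp.norm_eq_tsum_rpow (by norm_num)]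
  simp

/-- build an element of `ℓ¹` -/
def L1.mk (f : S → ℂ) (hf : Summable fun s => ‖f s‖) : L1 S :=
  ⟨f, memℓp_gen (by simpa using hf)⟩

@[simp] theorem L1.mk_apply (f : S → ℂ) (hf : Summable fun s => ‖f s‖) (s : S) :
    L1.mk f hf s = f s := rfl

theorem L1.ext {f g : L1 S} (h : ∀ s, f s = g s) : f = g := lp.ext (funext h)

theorem L1.smul_apply (c : ℂ) (f : L1 S) (s : S) : (c • f) s = c * f s := rfl

theorem L1.add_apply (f g : L1 S) (s : S) : (f + g) s = f s + g s := rfl

theorem L1.zero_apply (s : S) : (0 : L1 S) s = 0 := rfl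

/-- evaluation at a point as a continuous linear map -/
noncomputable def L1.ev (s : S) : L1 S →L[ℂ] ℂ :=
  LinearMap.mkContinuous
    { toFun := fun f => f s
      map_add' := fun _ _ => rfl
      map_smul' := fun _ _ => rfl } 1
    (fun f => by simpa using lp.norm_apply_le_norm (by norm_num) f s)

@[simp] theorem L1.ev_apply (s : S) (f : L1 S) : L1.ev s f = f s := rfl

/-- the restriction of `f` to the set `D` -/
noncomputable def L1.restr (D : Set S) (f : L1 S) : L1 S :=
  L1.mk (fun s => by classical exact if s ∈ D then f s else 0) (by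
    refine Summable.of_nonneg_of_le (fun _ => norm_nonneg _) (fun s => ?_) (L1.summable f)
    split_ifs
    · exact le_rfl
    · simp)

open Classical in
theorem L1.restr_apply (D : Set S) (f : L1 S) (s : S) :
    L1.restr D f s = if s ∈ D then f s else 0 := by
  rw [L1.restr, L1.mk_apply]

theorem L1.restr_of_mem {D : Set S} {f : L1 S} {s : S} (h : s ∈ D) : L1.restr D f s = f s := by
  classical
  rw [L1.restr_apply, if_pos h]

theorem L1.restr_of_notMem {D : Set S} {f : L1 S} {s : S} (h : s ∉ D) : L1.restr D f s = 0 := by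
  classical
  rw [L1.restr_apply, if_neg h]

/-- conjugation -/
noncomputable def L1.cj (f : L1 S) : L1 S := L1.mk (fun s => conj (f s)) (by simpa using (L1.summable f))

@[simp] theorem L1.cj_apply (f : L1 S) (s : S) : (L1.cj f) s = conj (f s) := rfl

end Basic

section Prod

variable {I : Type} [DecidableEq I]

theorem summable_prod (x y : L1 I) : Summable fun w : I × I => ‖x w.1‖ * ‖y w.2‖ :=
  Summable.mul_of_nonneg (L1.summable x) (L1.summable y) (fun _ => norm_nonneg _) (fun _ => norm_nonneg _)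

theorem tsum_prod (x y : L1 I) : ∑' w : I × I, ‖x w.1‖ * ‖y w.2‖ = ‖x‖ * ‖y‖ := by
  rw [L1.norm_eq, L1.norm_eq]
  exact (Summable.tsum_mul_tsum (L1.summable x) (L1.summable y) (summable_prod x y)).symm

/-- the off-diagonal part of `x ⊗ y` -/
noncomputable def od (x y : L1 I) : L1 (I × I) :=
  L1.mk (fun w => if w.1 = w.2 then 0 else x w.1 * y w.2) (by
    refine Summable.of_nonneg_of_le (fun _ => norm_nonneg _) (fun w => ?_) (summable_prod x y)
    split_ifs
    · simp; positivity
    · rw [norm_mul])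

@[simp] theorem od_apply (x y : L1 I) (w : I × I) :
    od x y w = if w.1 = w.2 then 0 else x w.1 * y w.2 := rfl

theorem summable_diag (x y : L1 I) : Summable fun a : I => ‖x a‖ * ‖y a‖ :=
  (summable_prod x y).comp_injective (i := fun a : I => (a, a)) (fun a b h => (Prod.ext_iff.1 h).1)

theorem norm_od_add (x y : L1 I) : ‖od x y‖ + ∑' a : I, ‖x a‖ * ‖y a‖ = ‖x‖ * ‖y‖ := by
  have hdiag : ∑' a : I, ‖x a‖ * ‖y a‖ =
      ∑' w : I × I, if w.1 = w.2 then ‖x w.1‖ * ‖y w.2‖ else 0 := by
    have hsum : Summable fun w : I × I => if w.1 = w.2 then ‖x w.1‖ * ‖y w.2‖ else 0 := by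
      refine Summable.of_nonneg_of_le (fun w => ?_) (fun w => ?_) (summable_prod x y)
      · split_ifs
        · positivity
        · exact le_rfl
      · split_ifs
        · exact le_rfl
        · positivity
    rw [hsum.tsum_prod]
    refine tsum_congr fun a => ?_
    rw [tsum_eq_single a]
    · simp
    · intro b hb
      rw [if_neg (fun h => hb h.symm)]
  rw [L1.norm_eq, hdiag, ← Summable.tsum_add (L1.summable (od x y)), ← tsum_prod]
  · refine tsum_congr fun w => ?_
    rw [od_apply]
    split_ifs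
    · simp
    · simp
  · refine Summable.of_nonneg_of_le (fun w => ?_) (fun w => ?_) (summable_prod x y)
    · split_ifs
      · positivity
      · exact le_rfl
    · split_ifs
      · exact le_rfl
      · positivity

variable (σ : I → L1 (I × I))

/-- the bilinear map -/
noncomputable def Bil (x y : L1 I) : L1 (I × I) := od x y + ∑' a, (x a * y a) • σ a

variable {σ}

theorem summable_bil (hσ : ∀ a, ‖σ a‖ ≤ 1) (x y : L1 I) :
    Summable fun a => (x a * y a) • σ a := by
  refine Summable.of_norm_bounded (summable_diag x y) fun a => ?_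
  rw [norm_smul, norm_mul]
  calc ‖x a‖ * ‖y a‖ * ‖σ a‖ ≤ ‖x a‖ * ‖y a‖ * 1 := by gcongr; exact hσ a
    _ = _ := mul_one _

theorem norm_bil_le (hσ : ∀ a, ‖σ a‖ ≤ 1) (x y : L1 I) : ‖Bil σ x y‖ ≤ ‖x‖ * ‖y‖ := by
  refine (norm_add_le _ _).trans ?_
  rw [← norm_od_add]
  refine add_le_add le_rfl ?_
  refine tsum_of_norm_bounded (summable_diag x y).hasSum fun a => ?_
  rw [norm_smul, norm_mul]
  calc ‖x a‖ * ‖y a‖ * ‖σ a‖ ≤ ‖x a‖ * ‖y a‖ * 1 := by gcongr; exact hσ a
    _ = _ := mul_one _

theorem bil_apply (hσ : ∀ a, ‖σ a‖ ≤ 1) (x y : L1 I) (w : I × I) :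
    Bil σ x y w = (if w.1 = w.2 then 0 else x w.1 * y w.2) + ∑' a, x a * y a * σ a w := by
  have h1 : (∑' a, (x a * y a) • σ a : L1 (I × I)) w = ∑' a, x a * y a * σ a w := by
    have := (L1.ev w).map_tsum (summable_bil hσ x y)
    simp only [L1.ev_apply] at this
    rw [this]
    rfl
  rw [← h1, ← od_apply]
  rfl

theorem summable_coord (hσ : ∀ a, ‖σ a‖ ≤ 1) (x y : L1 I) (w : I × I) :
    Summable fun a => x a * y a * σ a w := by
  have := (summable_bil hσ x y).map (L1.ev w) (L1.ev w).continuous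
  exact this

theorem bil_add_left (hσ : ∀ a, ‖σ a‖ ≤ 1) (x y z : L1 I) :
    Bil σ (x + y) z = Bil σ x z + Bil σ y z := by
  refine L1.ext fun w => ?_
  change Bil σ (x + y) z w = Bil σ x z w + Bil σ y z w
  rw [bil_apply hσ, bil_apply hσ, bil_apply hσ]
  have h : ∑' a, (x + y) a * z a * σ a w =
      (∑' a, x a * z a * σ a w) + ∑' a, y a * z a * σ a w := by
    rw [← (summable_coord hσ x z w).tsum_add (summable_coord hσ y z w)]
    refine tsum_congr fun a => ?_
    change (x a + y a) * z a * σ a w = _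
    ring
  rw [h]
  split_ifs
  · ring
  · change (x w.1 + y w.1) * z w.2 + _ = _
    ring

theorem bil_add_right (hσ : ∀ a, ‖σ a‖ ≤ 1) (x y z : L1 I) :
    Bil σ x (y + z) = Bil σ x y + Bil σ x z := by
  refine L1.ext fun w => ?_
  change Bil σ x (y + z) w = Bil σ x y w + Bil σ x z w
  rw [bil_apply hσ, bil_apply hσ, bil_apply hσ]
  have h : ∑' a, x a * (y + z) a * σ a w =
      (∑' a, x a * y a * σ a w) + ∑' a, x a * z a * σ a w := by
    rw [← (summable_coord hσ x y w).tsum_add (summable_coord hσ x z w)]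
    refine tsum_congr fun a => ?_
    change x a * (y a + z a) * σ a w = _
    ring
  rw [h]
  split_ifs
  · ring
  · change x w.1 * (y w.2 + z w.2) + _ = _
    ring

theorem bil_smul_left (hσ : ∀ a, ‖σ a‖ ≤ 1) (c : ℂ) (x y : L1 I) :
    Bil σ (c • x) y = c • Bil σ x y := by
  refine L1.ext fun w => ?_
  change Bil σ (c • x) y w = c * Bil σ x y w
  rw [bil_apply hσ, bil_apply hσ]
  have h : ∑' a, (c • x) a * y a * σ a w = c * ∑' a, x a * y a * σ a w := by
    rw [← tsum_mul_left]
    refine tsum_congr fun a => ?_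
    change (c * x a) * y a * σ a w = _
    ring
  rw [h]
  split_ifs
  · ring
  · change (c * x w.1) * y w.2 + _ = _
    ring

theorem bil_smul_right (hσ : ∀ a, ‖σ a‖ ≤ 1) (c : ℂ) (x y : L1 I) :
    Bil σ x (c • y) = c • Bil σ x y := by
  refine L1.ext fun w => ?_
  change Bil σ x (c • y) w = c * Bil σ x y w
  rw [bil_apply hσ, bil_apply hσ]
  have h : ∑' a, x a * (c • y) a * σ a w = c * ∑' a, x a * y a * σ a w := by
    rw [← tsum_mul_left]
    refine tsum_congr fun a => ?_
    change x a * (c * y a) * σ a w = _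
    ring
  rw [h]
  split_ifs
  · ring
  · change x w.1 * (c * y w.2) + _ = _
    ring

/-- the involution of `ℓ¹(I × I)` -/
noncomputable def jZ (z : L1 (I × I)) : L1 (I × I) :=
  L1.mk (fun w => conj (z w.swap)) (by
    have := (L1.summable z).comp_injective (i := Prod.swap) Prod.swap_injective
    simpa [Function.comp_def] using this)

omit [DecidableEq I] in
@[simp] theorem jZ_apply (z : L1 (I × I)) (w : I × I) : jZ z w = conj (z w.swap) := rfl

omit [DecidableEq I] in
theorem norm_jZ (z : L1 (I × I)) : ‖jZ z‖ = ‖z‖ := by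
  rw [L1.norm_eq, L1.norm_eq]
  simp only [jZ_apply, RCLike.norm_conj]
  exact (Equiv.prodComm I I).tsum_eq (fun w => ‖z w‖)

theorem jZ_bil (hσ : ∀ a, ‖σ a‖ ≤ 1) (hher : ∀ a, jZ (σ a) = σ a) (x y : L1 I) :
    jZ (Bil σ x y) = Bil σ (L1.cj y) (L1.cj x) := by
  refine L1.ext fun w => ?_
  rw [jZ_apply, bil_apply hσ, bil_apply hσ, map_add]
  congr 1
  · simp only [Prod.fst_swap, Prod.snd_swap, L1.cj_apply]
    by_cases h : w.1 = w.2
    · rw [if_pos h, if_pos h.symm, map_zero]
    · rw [if_neg h, if_neg (fun h' => h h'.symm), map_mul, mul_comm]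
  · rw [Complex.conj_tsum]
    refine tsum_congr fun a => ?_
    have h1 : conj (σ a w.swap) = σ a w := by
      have := congrArg (fun f : L1 (I × I) => f w) (hher a)
      simpa using this
    rw [map_mul, map_mul, h1, L1.cj_apply, L1.cj_apply]
    ring

end Prod

end Pool.Agent.Work.MP_10b086_an
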