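import Pool.Agent.Work.MP_10b086_an.Cex1

/-!
# The counterexample for (H1), (H2): finite rank tensors in the kernel
-/

open Topology Filter Set
open scoped ComplexConjugate NNReal ENNReal

namespace Pool.Agent.Work.MP_10b086_an

variable {I : Type} [LinearOrder I]

/-- the matrix of a finite rank tensor -/
noncomputable def tt {n : ℕ} (x y : Fin n → L1 I) (p q : I) : ℂ := ∑ i, x i p * y i q

/-- `x` is supported below `a` -/
def Below (a : I) (x : L1 I) : Prop := ∀ p, ¬ p < a → x p = 0

/-- the span of the values of the bilinear map on vectors supported below `a` -/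
noncomputable def Rs (σ : I → L1 (I × I)) (a : I) : Submodule ℂ (L1 (I × I)) :=
  Submodule.span ℂ {z | ∃ x y : L1 I, Below a x ∧ Below a y ∧ z = Bil σ x y}

section Entries

variable {σ : I → L1 (I × I)} (h1 : ∀ a, ‖σ a‖ ≤ 1) {n : ℕ} (x y : Fin n → L1 I)

include h1 in
theorem summable_tt (w : I × I) : Summable fun a => tt x y a a * σ a w := by
  have : (fun a => tt x y a a * σ a w) = fun a => ∑ i, x i a * y i a * σ a w := by
    ext a
    rw [tt, Finset.sum_mul]
  rw [this]
  exact summable_sum fun i _ => summable_coord h1 (x i) (y i) w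

include h1 in
theorem entry (w : I × I) : (∑ i, Bil σ (x i) (y i)) w =
    (if w.1 = w.2 then 0 else tt x y w.1 w.2) + ∑' a, tt x y a a * σ a w := by
  have e1 : (∑ i, Bil σ (x i) (y i)) w = ∑ i, Bil σ (x i) (y i) w :=
    map_sum (L1.ev w) (fun i => Bil σ (x i) (y i)) Finset.univ
  rw [e1]
  simp only [bil_apply h1]
  rw [Finset.sum_add_distrib]
  congr 1
  · by_cases h : w.1 = w.2
    · simp [h]
    · simp [h, tt]
  · rw [← Summable.tsum_finsetSum fun i _ => summable_coord h1 (x i) (y i) w]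
    refine tsum_congr fun a => ?_
    rw [tt, Finset.sum_mul]

end Entries

theorem summable_norm_tt {n : ℕ} (x y : Fin n → L1 I) :
    Summable fun w : I × I => ‖tt x y w.1 w.2‖ := by
  refine Summable.of_nonneg_of_le (fun _ => norm_nonneg _) (fun w => ?_)
    (summable_sum (s := Finset.univ) fun i _ => summable_prod (x i) (y i))
  rw [tt]
  refine (norm_sum_le _ _).trans (Finset.sum_le_sum fun i _ => ?_)
  rw [norm_mul]

/-- the row `p` of the tensor -/
noncomputable def row {n : ℕ} (x y : Fin n → L1 I) (p : I) : L1 I := ∑ i, x i p • y i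

theorem row_apply {n : ℕ} (x y : Fin n → L1 I) (p q : I) : row x y p q = tt x y p q := by
  have := map_sum (L1.ev q) (fun i => x i p • y i) Finset.univ
  simp only [L1.ev_apply] at this
  rw [row, this, tt]
  rfl

/-- tails are uniformly small on finite-dimensional spaces -/
theorem uniform_tail (V : Submodule ℂ (L1 I)) [FiniteDimensional ℂ V] (T : Set I)
    (hne : T.Nonempty)
    (hsupp : ∀ v ∈ V, ∀ q, v q ≠ 0 → ∃ a ∈ T, q < a) :
    ∃ μ ∈ T, ∀ v ∈ V, ‖L1.restr {q | μ ≤ q} v‖ ≤ 1 / 3 * ‖v‖ := by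
  classical
  -- pointwise
  have key : ∀ v ∈ V, ∀ ε > 0, ∃ μ₀ ∈ T, ∀ μ ≥ μ₀, ‖L1.restr {q | μ ≤ q} v‖ < ε := by
    intro v hv ε hε
    obtain ⟨s, hs⟩ := (tendsto_tsum_compl_atTop_zero (fun q => ‖v q‖)).eventually
      (gt_mem_nhds hε) |>.exists
    -- an upper bound in `T`
    have hub : ∃ μ₀ ∈ T, ∀ q ∈ s, v q ≠ 0 → q < μ₀ := by
      clear hs
      induction s using Finset.induction_on with
      | empty => obtain ⟨a, ha⟩ := hne; exact ⟨a, ha, by simp⟩
      | insert q s _ ih =>
        obtain ⟨a, ha, h⟩ := ih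
        by_cases hq : v q = 0
        · refine ⟨a, ha, fun r hr hr0 => ?_⟩
          rcases Finset.mem_insert.1 hr with rfl | hr
          · exact absurd hq hr0
          · exact h r hr hr0
        · obtain ⟨b, hb, hqb⟩ := hsupp v hv q hq
          refine ⟨max a b, ?_, fun r hr hr0 => ?_⟩
          · rcases max_choice a b with h' | h' <;> rw [h'] <;> assumption
          · rcases Finset.mem_insert.1 hr with rfl | hr
            · exact lt_max_of_lt_right hqb
            · exact lt_max_of_lt_left (h r hr hr0)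
    obtain ⟨μ₀, hμ₀, hub⟩ := hub
    refine ⟨μ₀, hμ₀, fun μ hμ => ?_⟩
    refine lt_of_le_of_lt ?_ hs
    have e0 : ∑' a : {x // x ∉ s}, ‖v a‖ =
        ∑' a, Set.indicator {q | q ∉ s} (fun q => ‖v q‖) a :=
      _root_.tsum_subtype {q | q ∉ s} (fun q => ‖v q‖)
    rw [L1.norm_eq, e0]
    refine (L1.summable _).tsum_le_tsum (fun q => ?_) ((L1.summable v).indicator _)
    by_cases hq : μ ≤ q
    · rw [L1.restr_of_mem (show q ∈ {q | μ ≤ q} from hq)]
      by_cases hqs : q ∈ s
      · have : v q = 0 := by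
          by_contra h0
          exact absurd (hub q hqs h0) (not_lt.2 (hμ.trans hq))
        rw [this, norm_zero]
        exact Set.indicator_nonneg (fun _ _ => norm_nonneg _) _
      · rw [Set.indicator_of_mem (show q ∈ {q | q ∉ s} from hqs)]
    · rw [L1.restr_of_notMem (show q ∉ {q | μ ≤ q} from hq), norm_zero]
      exact Set.indicator_nonneg (fun _ _ => norm_nonneg _) _
  -- uniformity
  let b := Module.finBasis ℂ V
  let K : Fin (Module.finrank ℂ V) → ℝ := fun i => ‖LinearMap.toContinuousLinearMap (b.coord i)‖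
  have hK0 : ∀ i, 0 ≤ K i := fun i => norm_nonneg (LinearMap.toContinuousLinearMap (b.coord i))
  have hKb : ∀ i (v : V), ‖b.coord i v‖ ≤ K i * ‖v‖ := fun i v =>
    (LinearMap.toContinuousLinearMap (b.coord i)).le_opNorm v
  set N : ℝ := (Module.finrank ℂ V : ℝ) + 1 with hN
  have hNpos : 0 < N := by positivity
  have hex : ∃ μ₀ ∈ T, ∀ i, ‖L1.restr {q | μ₀ ≤ q} (b i : L1 I)‖ * K i ≤ 1 / (3 * N) := by
    have : ∀ s : Finset (Fin (Module.finrank ℂ V)), ∃ μ₀ ∈ T, ∀ i ∈ s, ∀ μ ≥ μ₀,
        ‖L1.restr {q | μ ≤ q} (b i : L1 I)‖ * K i ≤ 1 / (3 * N) := by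
      intro s
      induction s using Finset.induction_on with
      | empty => obtain ⟨a, ha⟩ := hne; exact ⟨a, ha, by simp⟩
      | insert i s _ ih =>
        obtain ⟨a, ha, h⟩ := ih
        obtain ⟨c, hc, hc'⟩ := key (b i) (b i).2 (1 / (3 * N) / (K i + 1))
          (div_pos (by positivity) (by have := hK0 i; linarith))
        refine ⟨max a c, ?_, fun j hj μ hμ => ?_⟩
        · rcases max_choice a c with h' | h' <;> rw [h'] <;> assumption
        · rcases Finset.mem_insert.1 hj with rfl | hj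
          · have h5 := (hc' μ ((le_max_right a c).trans hμ)).le
            have h6 : 0 < K j + 1 := by have := hK0 j; linarith
            calc _ ≤ 1 / (3 * N) / (K j + 1) * (K j + 1) := by
                  refine mul_le_mul h5 (by linarith) (hK0 j) ?_
                  exact div_nonneg (by positivity) h6.le
              _ = 1 / (3 * N) := div_mul_cancel₀ _ h6.ne'
          · exact h j hj μ ((le_max_left a c).trans hμ)
    obtain ⟨μ₀, h, h'⟩ := this Finset.univ
    exact ⟨μ₀, h, fun i => h' i (Finset.mem_univ i) μ₀ le_rfl⟩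
  obtain ⟨μ, hμT, hμ⟩ := hex
  refine ⟨μ, hμT, fun v hv => ?_⟩
  have hrep : v = ∑ i, b.coord i ⟨v, hv⟩ • (b i : L1 I) := by
    have := congrArg (fun z : V => (z : L1 I)) (b.sum_repr ⟨v, hv⟩)
    simp only [Submodule.coe_sum, Submodule.coe_smul] at this
    exact this.symm
  have hrestr : L1.restr {q | μ ≤ q} v = ∑ i, b.coord i ⟨v, hv⟩ • L1.restr {q | μ ≤ q} (b i : L1 I) := by
    refine L1.ext fun q => ?_
    have e2 := map_sum (L1.ev q) (fun i => b.coord i ⟨v, hv⟩ • L1.restr {q | μ ≤ q} (b i : L1 I))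
      Finset.univ
    simp only [L1.ev_apply] at e2
    rw [e2]
    have e3 := congrArg (L1.ev q) hrep
    rw [map_sum] at e3
    simp only [L1.ev_apply] at e3
    by_cases hq : μ ≤ q
    · rw [L1.restr_of_mem (show q ∈ {q | μ ≤ q} from hq), e3]
      refine Finset.sum_congr rfl fun i _ => ?_
      rw [L1.smul_apply, L1.smul_apply, L1.restr_of_mem (show q ∈ {q | μ ≤ q} from hq)]
    · rw [L1.restr_of_notMem (show q ∉ {q | μ ≤ q} from hq)]
      symm
      refine Finset.sum_eq_zero fun i _ => ?_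
      rw [L1.smul_apply, L1.restr_of_notMem (show q ∉ {q | μ ≤ q} from hq), mul_zero]
  rw [hrestr]
  calc ‖∑ i, b.coord i ⟨v, hv⟩ • L1.restr {q | μ ≤ q} (b i : L1 I)‖
      ≤ ∑ i, ‖b.coord i ⟨v, hv⟩ • L1.restr {q | μ ≤ q} (b i : L1 I)‖ := norm_sum_le _ _
    _ ≤ ∑ _i : Fin (Module.finrank ℂ V), 1 / (3 * N) * ‖v‖ := by
        refine Finset.sum_le_sum fun i _ => ?_
        rw [norm_smul]
        have h5 := hKb i ⟨v, hv⟩
        have h6 : ‖(⟨v, hv⟩ : V)‖ = ‖v‖ := rfl
        rw [h6] at h5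
        calc ‖b.coord i ⟨v, hv⟩‖ * ‖L1.restr {q | μ ≤ q} (b i : L1 I)‖
            ≤ K i * ‖v‖ * ‖L1.restr {q | μ ≤ q} (b i : L1 I)‖ :=
              mul_le_mul_of_nonneg_right h5 (norm_nonneg _)
          _ = (‖L1.restr {q | μ ≤ q} (b i : L1 I)‖ * K i) * ‖v‖ := by ring
          _ ≤ _ := mul_le_mul_of_nonneg_right (hμ i) (norm_nonneg _)
    _ ≤ 1 / 3 * ‖v‖ := by
        rw [Finset.sum_const, Finset.card_univ, Fintype.card_fin, nsmul_eq_mul, ← mul_assoc]
        refine mul_le_mul_of_nonneg_right ?_ (norm_nonneg _)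
        rw [mul_one_div, div_le_div_iff₀ (by positivity) (by norm_num)]
        rw [hN]
        linarith

end Pool.Agent.Work.MP_10b086_an
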