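import Pool.Agent.Work.MP_10b086_an.Cex2

/-!
# The counterexample for (H1), (H2): the form is well defined
-/

open Topology Filter Set
open scoped ComplexConjugate NNReal ENNReal

namespace Pool.Agent.Work.MP_10b086_an

variable {I : Type} [LinearOrder I]

/-- the data of the recursive construction -/
structure Good (σ : I → L1 (I × I)) (D : Set I) : Prop where
  norm_le : ∀ a, ‖σ a‖ ≤ 1
  onD : ∀ a ∈ D, ∃ c : ℂ, c ≠ 0 ∧ ∀ w, σ a w = if w = (a, a) then c else 0
  supp : ∀ a ∉ D, ∀ w, σ a w ≠ 0 → w.1 < a ∧ w.2 < a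
  new : ∀ a ∉ D, σ a = 0 ∨ σ a ∉ Rs σ a

variable {σ : I → L1 (I × I)} {D : Set I} (hG : Good σ D) {n : ℕ} (x y : Fin n → L1 I)
  (h0 : ∑ i, Bil σ (x i) (y i) = 0)

include hG h0

theorem entry_zero (w : I × I) :
    (if w.1 = w.2 then 0 else tt x y w.1 w.2) + ∑' a, tt x y a a * σ a w = 0 := by
  rw [← entry hG.norm_le, h0]
  rfl

/-- an off-diagonal entry is nonzero only if some diagonal entry above is nonzero -/
theorem exists_above {p q : I} (hpq : p ≠ q) (h : tt x y p q ≠ 0) :
    ∃ a, a ∉ D ∧ tt x y a a ≠ 0 ∧ p < a ∧ q < a := by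
  have h1 := entry_zero hG x y h0 (p, q)
  simp only [if_neg hpq] at h1
  by_contra hcon
  push Not at hcon
  have h2 : ∑' a, tt x y a a * σ a (p, q) = 0 := by
    rw [← tsum_zero]
    refine tsum_congr fun a => ?_
    by_cases haD : a ∈ D
    · obtain ⟨c, _, hc⟩ := hG.onD a haD
      rw [hc, if_neg, mul_zero]
      intro h3
      have h4 := Prod.ext_iff.1 h3
      exact hpq (h4.1.trans h4.2.symm)
    · by_cases ht : tt x y a a = 0
      · rw [ht, zero_mul]
      · have h3 : σ a (p, q) = 0 := by
          by_contra h4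
          have h5 := hG.supp a haD _ h4
          exact absurd h5.2 (not_lt.2 (hcon a haD ht h5.1))
        rw [h3, mul_zero]
  rw [h2, add_zero] at h1
  exact h h1

theorem exists_above_diag {q : I} (hq : q ∈ D) (h : tt x y q q ≠ 0) :
    ∃ a, a ∉ D ∧ tt x y a a ≠ 0 ∧ q < a := by
  have h1 := entry_zero hG x y h0 (q, q)
  rw [if_pos rfl, zero_add] at h1
  by_contra hcon
  push Not at hcon
  have h2 : ∑' a, tt x y a a * σ a (q, q) = tt x y q q * σ q (q, q) := by
    refine tsum_eq_single q fun a haq => ?_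
    by_cases haD : a ∈ D
    · obtain ⟨c, _, hc⟩ := hG.onD a haD
      rw [hc, if_neg, mul_zero]
      intro h3
      exact haq (Prod.ext_iff.1 h3).1.symm
    · by_cases ht : tt x y a a = 0
      · rw [ht, zero_mul]
      · have h3 : σ a (q, q) = 0 := by
          by_contra h4
          have h5 := hG.supp a haD _ h4
          exact absurd h5.1 (not_lt.2 (hcon a haD ht))
        rw [h3, mul_zero]
  rw [h2] at h1
  obtain ⟨c, hc0, hc⟩ := hG.onD q hq
  rw [hc, if_pos rfl] at h1
  exact (mul_ne_zero h hc0) h1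

/-- the set of nonzero diagonal entries outside `D` cannot be nonempty without maximum -/
theorem exists_max (hne : ∃ a, a ∉ D ∧ tt x y a a ≠ 0) :
    ∃ c, c ∉ D ∧ tt x y c c ≠ 0 ∧ ∀ a, a ∉ D → tt x y a a ≠ 0 → a ≤ c := by
  classical
  by_contra hcon
  push Not at hcon
  set T : Set I := {a | a ∉ D ∧ tt x y a a ≠ 0} with hT
  have hTne : T.Nonempty := hne
  have hTmax : ∀ a ∈ T, ∃ b ∈ T, a < b := by
    intro a ha
    obtain ⟨b, hb1, hb2, hb3⟩ := hcon a ha.1 ha.2
    exact ⟨b, ⟨hb1, hb2⟩, hb3⟩
  -- all nonzero entries are below elements of T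
  have hsup : ∀ p q, tt x y p q ≠ 0 → ∃ a ∈ T, p < a ∧ q < a := by
    intro p q hpq
    by_cases h : p = q
    · subst h
      by_cases hp : p ∈ D
      · obtain ⟨a, ha1, ha2, ha3⟩ := exists_above_diag hG x y h0 hp hpq
        exact ⟨a, ⟨ha1, ha2⟩, ha3, ha3⟩
      · obtain ⟨b, hb, hb'⟩ := hTmax p ⟨hp, hpq⟩
        exact ⟨b, hb, hb', hb'⟩
    · obtain ⟨a, ha1, ha2, ha3⟩ := exists_above hG x y h0 h hpq
      exact ⟨a, ⟨ha1, ha2⟩, ha3⟩
  -- the space of rows
  set V : Submodule ℂ (L1 I) := Submodule.span ℂ (Set.range fun p => row x y p) with hV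
  have hVle : V ≤ Submodule.span ℂ (Set.range y) := by
    refine Submodule.span_le.2 ?_
    rintro _ ⟨p, rfl⟩
    refine Submodule.sum_mem _ fun i _ => Submodule.smul_mem _ _ (Submodule.subset_span ⟨i, rfl⟩)
  have hfin' : FiniteDimensional ℂ (Submodule.span ℂ (Set.range y)) :=
    FiniteDimensional.span_of_finite ℂ (Set.finite_range y)
  have hfin : FiniteDimensional ℂ V := Submodule.finiteDimensional_of_le hVle
  have hVsupp : ∀ v ∈ V, ∀ q, v q ≠ 0 → ∃ a ∈ T, q < a := by
    intro v hv q hq
    by_contra hcon2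
    apply hq
    refine Submodule.span_induction (p := fun v _ => v q = 0) ?_ ?_ ?_ ?_ hv
    · rintro _ ⟨p, rfl⟩
      change row x y p q = 0
      rw [row_apply]
      by_contra h3
      obtain ⟨a, ha, _, ha2⟩ := hsup p q h3
      exact hcon2 ⟨a, ha, ha2⟩
    · rfl
    · intro f g _ _ hf hg
      rw [L1.add_apply, hf, hg, add_zero]
    · intro c f _ hf
      rw [L1.smul_apply, hf, mul_zero]
  obtain ⟨μ, hμT, hμ⟩ := uniform_tail V T hTne hVsupp
  -- the sums
  set g : I × I → ℝ := fun w => ‖tt x y w.1 w.2‖ with hg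
  have hgs : Summable g := summable_norm_tt x y
  have hg0 : ∀ w, 0 ≤ g w := fun w => norm_nonneg _
  set W1 : Set (I × I) := {w | μ ≤ w.1 ∧ μ ≤ w.2} with hW1
  set W2 : Set (I × I) := {w | μ ≤ w.1 ∧ w.2 < μ} with hW2
  set W : Set (I × I) := {w | μ ≤ w.1} with hW
  have hs1 : Summable (W1.indicator g) := hgs.indicator _
  have hs2 : Summable (W2.indicator g) := hgs.indicator _
  have hs : Summable (W.indicator g) := hgs.indicator _
  have hsplit : ∑' w, W.indicator g w = ∑' w, W1.indicator g w + ∑' w, W2.indicator g w := by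
    rw [← hs1.tsum_add hs2]
    refine tsum_congr fun w => ?_
    by_cases hw : μ ≤ w.1
    · rw [Set.indicator_of_mem (show w ∈ W from hw)]
      by_cases hw2 : μ ≤ w.2
      · rw [Set.indicator_of_mem (show w ∈ W1 from ⟨hw, hw2⟩),
          Set.indicator_of_notMem (show w ∉ W2 from fun h => absurd hw2 (not_le.2 h.2)), add_zero]
      · rw [Set.indicator_of_notMem (show w ∉ W1 from fun h => hw2 h.2),
          Set.indicator_of_mem (show w ∈ W2 from ⟨hw, not_le.1 hw2⟩), zero_add]
    · rw [Set.indicator_of_notMem (show w ∉ W from hw),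
        Set.indicator_of_notMem (show w ∉ W1 from fun h => hw h.1),
        Set.indicator_of_notMem (show w ∉ W2 from fun h => hw h.1), add_zero]
  -- first estimate
  have hest1 : ∑' w, W1.indicator g w ≤ 1 / 3 * ∑' w, W.indicator g w := by
    rw [hs1.tsum_prod, hs.tsum_prod, ← tsum_mul_left]
    refine Summable.tsum_le_tsum (fun p => ?_) hs1.prod (hs.prod.mul_left _)
    by_cases hp : μ ≤ p
    · have e1 : ∑' q, W1.indicator g (p, q) = ‖L1.restr {q | μ ≤ q} (row x y p)‖ := by
        rw [L1.norm_eq]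
        refine tsum_congr fun q => ?_
        by_cases hq : μ ≤ q
        · rw [Set.indicator_of_mem (show (p, q) ∈ W1 from ⟨hp, hq⟩),
            L1.restr_of_mem (show q ∈ {q | μ ≤ q} from hq), row_apply]
        · rw [Set.indicator_of_notMem (show (p, q) ∉ W1 from fun h => hq h.2),
            L1.restr_of_notMem (show q ∉ {q | μ ≤ q} from hq), norm_zero]
      have e2 : ∑' q, W.indicator g (p, q) = ‖row x y p‖ := by
        rw [L1.norm_eq]
        refine tsum_congr fun q => ?_
        rw [Set.indicator_of_mem (show (p, q) ∈ W from hp), row_apply]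
      rw [e1, e2]
      exact hμ _ (Submodule.subset_span ⟨p, rfl⟩)
    · have e1 : ∑' q, W1.indicator g (p, q) = 0 := by
        rw [← tsum_zero]
        exact tsum_congr fun q =>
          Set.indicator_of_notMem (show (p, q) ∉ W1 from fun h => hp h.1) _
      have e2 : ∑' q, W.indicator g (p, q) = 0 := by
        rw [← tsum_zero]
        exact tsum_congr fun q => Set.indicator_of_notMem (show (p, q) ∉ W from hp) _
      rw [e1, e2, mul_zero]
  -- second estimate
  have hdiag : Summable fun a : I => ‖tt x y a a‖ :=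
    hgs.comp_injective (i := fun a : I => (a, a)) (fun a b h => (Prod.ext_iff.1 h).1)
  set τ : I → ℂ := fun a => if a ∉ D ∧ μ ≤ a then tt x y a a else 0 with hτ
  have hτn : ∀ a, ‖τ a‖ ≤ ‖tt x y a a‖ := by
    intro a
    simp only [hτ]
    split_ifs
    · exact le_rfl
    · simp
  have hτs : Summable fun a => ‖τ a‖ :=
    Summable.of_nonneg_of_le (fun _ => norm_nonneg _) hτn hdiag
  have hUs : Summable fun a => τ a • σ a := by
    refine Summable.of_norm_bounded hτs fun a => ?_
    rw [norm_smul]
    exact mul_le_of_le_one_right (norm_nonneg _) (hG.norm_le a)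
  set U : L1 (I × I) := ∑' a, τ a • σ a with hU
  have hUn : ‖U‖ ≤ ∑' a, ‖τ a‖ := by
    refine tsum_of_norm_bounded hτs.hasSum fun a => ?_
    rw [norm_smul]
    exact mul_le_of_le_one_right (norm_nonneg _) (hG.norm_le a)
  have hUapp : ∀ w, U w = ∑' a, τ a * σ a w := by
    intro w
    have := (L1.ev w).map_tsum hUs
    simp only [L1.ev_apply] at this
    rw [hU, this]
    rfl
  have hW2eq : ∀ w ∈ W2, g w = ‖U w‖ := by
    intro w hw
    have hne : w.1 ≠ w.2 := fun h => absurd hw.1 (not_le.2 (h ▸ hw.2))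
    have h5 := entry_zero hG x y h0 w
    rw [if_neg hne] at h5
    have h6 : ∑' a, tt x y a a * σ a w = U w := by
      rw [hUapp]
      refine tsum_congr fun a => ?_
      simp only [hτ]
      split_ifs with h7
      · rfl
      · rw [zero_mul]
        by_cases haD : a ∈ D
        · obtain ⟨c, _, hc⟩ := hG.onD a haD
          rw [hc, if_neg, mul_zero]
          intro h3
          rw [h3] at hne
          exact hne rfl
        · have h8 : ¬ μ ≤ a := fun h => h7 ⟨haD, h⟩
          have h9 : σ a w = 0 := by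
            by_contra h10
            have h11 := hG.supp a haD w h10
            exact h8 (hw.1.trans h11.1.le)
          rw [h9, mul_zero]
    rw [h6] at h5
    have h7 : tt x y w.1 w.2 = - U w := eq_neg_of_add_eq_zero_left h5
    simp only [hg]
    rw [h7, norm_neg]
  have hest2 : ∑' w, W2.indicator g w ≤ ∑' w, W1.indicator g w := by
    calc ∑' w, W2.indicator g w ≤ ∑' w, ‖U w‖ := by
          refine Summable.tsum_le_tsum (fun w => ?_) hs2 (L1.summable U)
          by_cases hw : w ∈ W2
          · rw [Set.indicator_of_mem hw, hW2eq w hw]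
          · rw [Set.indicator_of_notMem hw]
            exact norm_nonneg _
      _ = ‖U‖ := (L1.norm_eq U).symm
      _ ≤ ∑' a, ‖τ a‖ := hUn
      _ ≤ ∑' a : I, W1.indicator g (a, a) := by
          refine Summable.tsum_le_tsum (fun a => ?_) hτs
            (hs1.comp_injective (i := fun a : I => (a, a)) (fun a b h => (Prod.ext_iff.1 h).1))
          simp only [hτ]
          split_ifs with h7
          · rw [Set.indicator_of_mem (show (a, a) ∈ W1 from ⟨h7.2, h7.2⟩)]
          · rw [norm_zero]
            exact Set.indicator_nonneg (fun w _ => hg0 w) _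
      _ ≤ ∑' w, W1.indicator g w := by
          refine Summable.tsum_le_tsum_of_inj (fun a : I => (a, a))
            (fun a b h => (Prod.ext_iff.1 h).1)
            (fun w _ => Set.indicator_nonneg (fun w _ => hg0 w) _) (fun a => le_rfl)
            (hs1.comp_injective (i := fun a : I => (a, a)) (fun a b h => (Prod.ext_iff.1 h).1)) hs1
  have hN0 : ∑' w, W1.indicator g w = 0 := by
    have h5 : 0 ≤ ∑' w, W1.indicator g w :=
      tsum_nonneg fun w => Set.indicator_nonneg (fun w _ => hg0 w) _
    linarith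
  have h5 : W1.indicator g (μ, μ) = 0 := by
    have h6 := (hs1.hasSum_iff.2 hN0)
    have h7 := (hasSum_zero_iff_of_nonneg
      (fun w => Set.indicator_nonneg (s := W1) (fun w _ => hg0 w) w)).1 h6
    exact congrFun h7 (μ, μ)
  rw [Set.indicator_of_mem (show (μ, μ) ∈ W1 from ⟨le_rfl, le_rfl⟩)] at h5
  exact hμT.2 (norm_eq_zero.1 h5)

end Pool.Agent.Work.MP_10b086_an
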