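import Pool.Agent.Work.MP_10b086_an.Cex3

/-!
# The counterexample for (H1), (H2): the core induction
-/

open Topology Filter Set
open scoped ComplexConjugate NNReal ENNReal

namespace Pool.Agent.Work.MP_10b086_an

variable {I : Type} [LinearOrder I] {σ : I → L1 (I × I)} {D : Set I}

/-- the statement proved by induction -/
def PP (σ : I → L1 (I × I)) (D : Set I) (c : I) : Prop :=
  ∀ (n : ℕ) (x y : Fin n → L1 I), (∀ i, Below c (x i)) → (∀ i, Below c (y i)) →
    ∑ i, Bil σ (x i) (y i) = 0 → ∀ k ∈ D, tt x y k k = 0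

theorem core_step (hG : Good σ D) {n : ℕ} (x y : Fin n → L1 I)
    (h0 : ∑ i, Bil σ (x i) (y i) = 0)
    (hC : ∀ c, c ∉ D → tt x y c c ≠ 0 → PP σ D c) : ∀ k ∈ D, tt x y k k = 0 := by
  classical
  by_cases hne : ∃ a, a ∉ D ∧ tt x y a a ≠ 0
  swap
  · intro k hk
    by_contra h
    obtain ⟨a, ha1, ha2, _⟩ := exists_above_diag hG x y h0 hk h
    exact hne ⟨a, ha1, ha2⟩
  obtain ⟨c, hcD, hcc, hmax⟩ := exists_max hG x y h0 hne
  have hDle : ∀ k ∈ D, tt x y k k ≠ 0 → k < c := by
    intro k hk h
    obtain ⟨b, hb1, hb2, hb3⟩ := exists_above_diag hG x y h0 hk h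
    exact hb3.trans_le (hmax b hb1 hb2)
  set x' : Fin n → L1 I := fun i => L1.restr {p | p < c} (x i) with hx'
  set y' : Fin n → L1 I := fun i => L1.restr {p | p < c} (y i) with hy'
  have htt' : ∀ p q, tt x' y' p q = if p < c ∧ q < c then tt x y p q else 0 := by
    intro p q
    by_cases h : p < c ∧ q < c
    · rw [if_pos h, tt, tt]
      refine Finset.sum_congr rfl fun i _ => ?_
      simp only [hx', hy']
      rw [L1.restr_of_mem (show p ∈ {p | p < c} from h.1),
        L1.restr_of_mem (show q ∈ {p | p < c} from h.2)]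
    · rw [if_neg h, tt]
      refine Finset.sum_eq_zero fun i _ => ?_
      simp only [hx', hy']
      by_cases hp : p < c
      · have hq : ¬ q < c := fun hq => h ⟨hp, hq⟩
        rw [L1.restr_of_notMem (show q ∉ {p | p < c} from hq), mul_zero]
      · rw [L1.restr_of_notMem (show p ∉ {p | p < c} from hp), zero_mul]
  have hdec : ∑ i, Bil σ (x i) (y i) = ∑ i, Bil σ (x' i) (y' i) + tt x y c c • σ c := by
    refine L1.ext fun w => ?_
    rw [L1.add_apply, L1.smul_apply, entry hG.norm_le, entry hG.norm_le, add_assoc]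
    congr 1
    · by_cases hw : w.1 = w.2
      · rw [if_pos hw, if_pos hw]
      · rw [if_neg hw, if_neg hw, htt']
        split_ifs with h
        · rfl
        · by_contra h2
          obtain ⟨a, ha1, ha2, ha3, ha4⟩ := exists_above hG x y h0 hw h2
          exact h ⟨ha3.trans_le (hmax a ha1 ha2), ha4.trans_le (hmax a ha1 ha2)⟩
    · have e1 : ∀ a, tt x y a a * σ a w = tt x' y' a a * σ a w +
          (if a = c then tt x y c c * σ c w else 0) := by
        intro a
        rw [htt']
        rcases lt_trichotomy a c with h | h | h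
        · rw [if_pos ⟨h, h⟩, if_neg h.ne, add_zero]
        · subst h
          rw [if_neg (fun h => lt_irrefl _ h.1), if_pos rfl, zero_mul, zero_add]
        · rw [if_neg (fun h' => lt_asymm h h'.1), if_neg h.ne', zero_mul, add_zero]
          have : tt x y a a = 0 := by
            by_contra h2
            by_cases haD : a ∈ D
            · exact lt_asymm h (hDle a haD h2)
            · exact absurd (hmax a haD h2) (not_le.2 h)
          rw [this, zero_mul]
      have hs := summable_tt hG.norm_le x' y' w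
      have hs2 : Summable fun a => if a = c then tt x y c c * σ c w else 0 :=
        (hasSum_ite_eq c _).summable
      rw [tsum_congr e1, hs.tsum_add hs2, tsum_ite_eq]
  have hbx : ∀ i, Below c (x' i) := fun i p hp => L1.restr_of_notMem hp
  have hby : ∀ i, Below c (y' i) := fun i p hp => L1.restr_of_notMem hp
  have hZR : ∑ i, Bil σ (x' i) (y' i) ∈ Rs σ c :=
    Submodule.sum_mem _ fun i _ => Submodule.subset_span ⟨x' i, y' i, hbx i, hby i, rfl⟩
  have hσR : σ c ∈ Rs σ c := by
    have h1 : tt x y c c • σ c = - ∑ i, Bil σ (x' i) (y' i) := by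
      rw [h0] at hdec
      exact (neg_eq_of_add_eq_zero_right hdec.symm).symm
    have h2 : σ c = (tt x y c c)⁻¹ • (- ∑ i, Bil σ (x' i) (y' i)) := by
      rw [← h1, smul_smul, inv_mul_cancel₀ hcc, one_smul]
    rw [h2]
    exact Submodule.smul_mem _ _ (Submodule.neg_mem _ hZR)
  have hσ0 : σ c = 0 := by
    rcases hG.new c hcD with h | h
    · exact h
    · exact absurd hσR h
  rw [hσ0, smul_zero, add_zero, h0] at hdec
  have hPP := hC c hcD hcc n x' y' hbx hby hdec.symm
  intro k hk
  by_contra h
  have h1 := hDle k hk h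
  have h2 := hPP k hk
  rw [htt', if_pos ⟨h1, h1⟩] at h2
  exact h h2

theorem pp_all [WellFoundedLT I] (hG : Good σ D) (c : I) : PP σ D c := by
  induction c using WellFoundedLT.induction with
  | _ c ih =>
    intro n x y hx hy h0
    refine core_step hG x y h0 fun c' hc' h => ih c' ?_
    by_contra hlt
    apply h
    rw [tt]
    exact Finset.sum_eq_zero fun i _ => by rw [hx i c' hlt, zero_mul]

/-- the diagonal entries over `D` of a finite rank tensor in the kernel vanish -/
theorem core [WellFoundedLT I] (hG : Good σ D) {n : ℕ} (x y : Fin n → L1 I)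
    (h0 : ∑ i, Bil σ (x i) (y i) = 0) : ∀ k ∈ D, tt x y k k = 0 :=
  core_step hG x y h0 fun c _ _ => pp_all hG c

/-- the functional -/
theorem exists_functional [WellFoundedLT I] (hG : Good σ D) (d : ℕ → I)
    (hd : Function.Injective d) (hdD : ∀ n, d n ∈ D)
    (hspan : Submodule.span ℂ {z | ∃ x y, z = Bil σ x y} = ⊤) :
    ∃ F : L1 (I × I) →ₗ[ℂ] ℂ, ∀ x y, F (Bil σ x y) = ∑' n, x (d n) * y (d n) := by
  have hsum : ∀ x y : L1 I, Summable fun n => x (d n) * y (d n) := by
    intro x y
    have h1 := (summable_diag x y).comp_injective hd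
    refine Summable.of_norm_bounded h1 fun n => ?_
    rw [norm_mul]
    rfl
  let Φ : ((L1 I × L1 I) →₀ ℂ) →ₗ[ℂ] L1 (I × I) :=
    Finsupp.linearCombination ℂ (fun p : L1 I × L1 I => Bil σ p.1 p.2)
  let φ : ((L1 I × L1 I) →₀ ℂ) →ₗ[ℂ] ℂ :=
    Finsupp.linearCombination ℂ (fun p : L1 I × L1 I => ∑' n, p.1 (d n) * p.2 (d n))
  have hker : ∀ g, Φ g = 0 → φ g = 0 := by
    intro g hg
    -- index the support by `Fin n`
    let e := g.support.equivFin
    set m := g.support.card with hm
    let x : Fin m → L1 I := fun i => g (e.symm i : L1 I × L1 I) • (e.symm i : L1 I × L1 I).1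
    let y : Fin m → L1 I := fun i => (e.symm i : L1 I × L1 I).2
    have hΦ : Φ g = ∑ i, Bil σ (x i) (y i) := by
      have h1 : Φ g = ∑ p ∈ g.support, g p • Bil σ p.1 p.2 := by
        change Finsupp.linearCombination ℂ _ g = _
        rw [Finsupp.linearCombination_apply, Finsupp.sum]
      rw [h1, ← Finset.sum_coe_sort g.support (fun p => g p • Bil σ p.1 p.2)]
      refine Fintype.sum_equiv e _ _ fun p => ?_
      simp only [x, y, Equiv.symm_apply_apply]
      rw [bil_smul_left hG.norm_le]
    rw [hΦ] at hg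
    have hc := core hG x y hg
    have hφ : φ g = ∑' n, tt x y (d n) (d n) := by
      have h1 : φ g = ∑ p ∈ g.support, g p * ∑' n, p.1 (d n) * p.2 (d n) := by
        change Finsupp.linearCombination ℂ _ g = _
        rw [Finsupp.linearCombination_apply, Finsupp.sum]
        rfl
      rw [h1, ← Finset.sum_coe_sort g.support (fun p => g p * ∑' n, p.1 (d n) * p.2 (d n))]
      have h2 : ∑ p : g.support, g p * ∑' n, (p : L1 I × L1 I).1 (d n) * (p : L1 I × L1 I).2 (d n)
          = ∑ i, ∑' n, x i (d n) * y i (d n) := by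
        refine Fintype.sum_equiv e _ _ fun p => ?_
        simp only [x, y, Equiv.symm_apply_apply]
        rw [← tsum_mul_left]
        refine tsum_congr fun n => ?_
        rw [L1.smul_apply, mul_assoc]
      rw [h2, ← Summable.tsum_finsetSum fun i _ => hsum (x i) (y i)]
      rfl
    rw [hφ]
    rw [tsum_congr fun n => hc (d n) (hdD n), tsum_zero]
  have hsurj : Function.Surjective Φ := by
    rw [← LinearMap.range_eq_top, Finsupp.range_linearCombination, ← hspan]
    congr 1
    ext z
    constructor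
    · rintro ⟨p, rfl⟩
      exact ⟨p.1, p.2, rfl⟩
    · rintro ⟨x, y, rfl⟩
      exact ⟨(x, y), rfl⟩
  obtain ⟨Ψ, hΨ⟩ := Φ.exists_rightInverse_of_surjective (LinearMap.range_eq_top.2 hsurj)
  refine ⟨φ ∘ₗ Ψ, fun x y => ?_⟩
  have h1 : Φ (Finsupp.single (x, y) 1) = Bil σ x y := by
    change Finsupp.linearCombination ℂ _ _ = _
    rw [Finsupp.linearCombination_single, one_smul]
  have h2 : Φ (Ψ (Bil σ x y)) = Bil σ x y := LinearMap.congr_fun hΨ _
  have h3 : φ (Ψ (Bil σ x y) - Finsupp.single (x, y) 1) = 0 := by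
    apply hker
    rw [map_sub, h1, h2, sub_self]
  rw [map_sub, sub_eq_zero] at h3
  change φ (Ψ (Bil σ x y)) = _
  rw [h3]
  change Finsupp.linearCombination ℂ _ _ = _
  rw [Finsupp.linearCombination_single, one_smul]

end Pool.Agent.Work.MP_10b086_an
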