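import Pool.Agent.Work.MP_10b086_an.Positive

/-!
# Positive functionals on non-unital Banach *-algebras: `z ↦ f (a z b)` is continuous
-/

open Topology Filter Set
open scoped ComplexConjugate NNReal ENNReal

namespace Pool.Agent.Work.MP_10b086_an

section Defs

variable {A : Type*} [NonUnitalNormedRing A] [NormedSpace ℂ A] [StarRing A]

/-- positive functionals: `f (a* a) ≥ 0` -/
def IsPositive (f : A →ₗ[ℂ] ℂ) : Prop :=
  ∀ a : A, 0 ≤ (f (star a * a)).re ∧ (f (star a * a)).im = 0

/-- traces: positive functionals with `f (a b) = f (b a)` -/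
def IsTrace (f : A →ₗ[ℂ] ℂ) : Prop :=
  IsPositive f ∧ ∀ a b : A, f (a * b) = f (b * a)

end Defs

variable {A : Type*} [NonUnitalNormedRing A] [NormedSpace ℂ A] [IsScalarTower ℂ A A]
  [SMulCommClass ℂ A A] [CompleteSpace A] [StarRing A] [StarModule ℂ A]

/-- the form `(x, y) ↦ f (x* y)` -/
theorem psd_of_isPositive {f : A →ₗ[ℂ] ℂ} (hf : IsPositive f) :
    IsPSD (fun x y : A => f (star x * y)) where
  add_left x y z := by rw [star_add, add_mul, map_add]
  smul_left c x z := by rw [star_smul, smul_mul_assoc, map_smul, smul_eq_mul]; rfl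
  add_right x y z := by rw [mul_add, map_add]
  smul_right c x z := by rw [mul_smul_comm, map_smul, smul_eq_mul]
  nonneg x := hf x

section Unitization

/-- the unitization with the `ℓ¹` norm -/
abbrev Un (A : Type*) := WithLp 1 (Unitization ℂ A)

/-- the involution of the unitization -/
def su (x : Un A) : Un A := WithLp.toLp 1 (star (WithLp.ofLp x))

omit [CompleteSpace A] in
theorem isInv_su : IsInv (su : Un A → Un A) where
  add x y := by
    change WithLp.toLp 1 (star (WithLp.ofLp x + WithLp.ofLp y)) = _
    rw [star_add]; rfl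
  smul c x := by
    change WithLp.toLp 1 (star (c • WithLp.ofLp x)) = _
    rw [star_smul]; rfl
  mul x y := congrArg (WithLp.toLp 1) (star_mul (WithLp.ofLp x) (WithLp.ofLp y))
  invol x := by
    change WithLp.toLp 1 (star (star (WithLp.ofLp x))) = _
    rw [star_star]

instance : NormOneClass (Un A) where
  norm_one := by
    rw [WithLp.unitization_norm_def]
    change ‖(1 : Unitization ℂ A).fst‖ + ‖(1 : Unitization ℂ A).snd‖ = 1
    simp

/-- the action of the unitization on `A` -/
def act (x : Un A) (a : A) : A := (WithLp.ofLp x).fst • a + (WithLp.ofLp x).snd * a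

omit [CompleteSpace A] [StarRing A] [StarModule ℂ A] in
theorem act_mul (x y : Un A) (a : A) : act (x * y) a = act x (act y a) := by
  simp only [act, WithLp.unitization_mul, Unitization.fst_mul, Unitization.snd_mul]
  simp only [smul_add, mul_add, add_mul, smul_mul_assoc, mul_smul_comm, mul_smul, mul_assoc]
  abel

omit [CompleteSpace A] in
theorem star_act (x : Un A) (a b : A) : star (act x a) * b = star a * act (su x) b := by
  simp only [act, su, star_add, star_smul, star_mul, Unitization.fst_star, Unitization.snd_star]
  simp only [mul_add, add_mul, smul_mul_assoc, mul_smul_comm, mul_assoc]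

/-- the functional `x ↦ f (a* (x · a))` on the unitization -/
def ext (f : A →ₗ[ℂ] ℂ) (a : A) : Un A →ₗ[ℂ] ℂ where
  toFun x := f (star a * act x a)
  map_add' x y := by
    have : act (x + y) a = act x a + act y a := by
      simp only [act, WithLp.ofLp_add, Unitization.fst_add, Unitization.snd_add, add_smul, add_mul]
      abel
    rw [this, mul_add, map_add]
  map_smul' c x := by
    have : act (c • x) a = c • act x a := by
      simp only [act, WithLp.ofLp_smul, Unitization.fst_smul, Unitization.snd_smul, smul_add,
        smul_mul_assoc, smul_eq_mul, mul_smul]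
    rw [this, mul_smul_comm, map_smul]
    rfl

omit [CompleteSpace A] in
theorem pos_ext {f : A →ₗ[ℂ] ℂ} (hf : IsPositive f) (a : A) : Pos su (ext f a) := by
  intro x
  change 0 ≤ (f (star a * act (su x * x) a)).re ∧ (f (star a * act (su x * x) a)).im = 0
  rw [act_mul, ← star_act]
  exact hf _

/-- embed `A` in its unitization -/
def inU (z : A) : Un A := WithLp.toLp 1 (z : Unitization ℂ A)

omit [IsScalarTower ℂ A A] [SMulCommClass ℂ A A] [CompleteSpace A] [StarRing A]
  [StarModule ℂ A] in
theorem act_inU (z a : A) : act (inU z) a = z * a := by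
  simp [act, inU]

omit [CompleteSpace A] in
theorem ext_inU (f : A →ₗ[ℂ] ℂ) (z a : A) : ext f a (inU z) = f (star a * (z * a)) := by
  change f (star a * act (inU z) a) = _
  rw [act_inU]

omit [CompleteSpace A] in
theorem ext_one (f : A →ₗ[ℂ] ℂ) (a : A) : ext f a 1 = f (star a * a) := by
  change f (star a * act 1 a) = _
  congr 2
  change (1 : Unitization ℂ A).fst • a + (1 : Unitization ℂ A).snd * a = a
  simp

end Unitization

/-- `z ↦ f (a* z a)` is continuous -/
theorem continuous_star_mul_mul {f : A →ₗ[ℂ] ℂ} (hf : IsPositive f) (a : A) :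
    Continuous fun z : A => f (star a * (z * a)) := by
  have h1 := continuous_of_pos isInv_su (pos_ext hf a)
  have h2 : Continuous (inU : A → Un A) :=
    (WithLp.unitization_isometry_inr (𝕜 := ℂ) (A := A)).continuous
  have h3 := h1.comp h2
  refine h3.congr fun z => ?_
  exact ext_inU f z a

/-- hermitian elements act as bounded operators -/
theorem bound_herm_mul {f : A →ₗ[ℂ] ℂ} (hf : IsPositive f) {h : A} (hh : star h = h) (a : A) :
    ‖f (star a * (h * a))‖ ≤ (f (star a * a)).re * ‖h‖ := by
  have h1 := bound_herm isInv_su (pos_ext hf a) (h := inU h) (by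
    change WithLp.toLp 1 (star (h : Unitization ℂ A)) = _
    rw [← Unitization.inr_star, hh]; rfl)
  rw [ext_inU, ext_one] at h1
  have h2 : ‖(inU h : Un A)‖ = ‖h‖ := WithLp.unitization_norm_inr h
  rwa [h2] at h1

/-- `z ↦ f (a* z b)` is continuous -/
theorem continuous_star_mul_mul' {f : A →ₗ[ℂ] ℂ} (hf : IsPositive f) (a b : A) :
    Continuous fun z : A => f (star a * (z * b)) := by
  have e : ∀ z : A, f (star a * (z * b)) =
      (f (star (b + a) * (z * (b + a))) - f (star (b - a) * (z * (b - a)))
       + Complex.I * f (star (b + Complex.I • a) * (z * (b + Complex.I • a)))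
       - Complex.I * f (star (b - Complex.I • a) * (z * (b - Complex.I • a)))) / 4 := by
    intro z
    simp only [star_add, star_sub, star_smul, mul_add, add_mul, mul_sub, sub_mul, map_add, map_sub,
      smul_mul_assoc, mul_smul_comm, map_smul, smul_eq_mul, RCLike.star_def, Complex.conj_I]
    ring_nf
    simp only [Complex.I_sq, pow_succ, pow_zero, one_mul, Complex.I_mul_I]
    ring
  have h1 := continuous_star_mul_mul hf (b + a)
  have h2 := continuous_star_mul_mul hf (b - a)
  have h3 := continuous_star_mul_mul hf (b + Complex.I • a)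
  have h4 := continuous_star_mul_mul hf (b - Complex.I • a)
  refine Continuous.congr ?_ (fun z => (e z).symm)
  exact (((h1.sub h2).add (continuous_const.mul h3)).sub (continuous_const.mul h4)).div_const 4

/-- `z ↦ f (a z b)` is continuous -/
theorem continuous_mul_mul {f : A →ₗ[ℂ] ℂ} (hf : IsPositive f) (a b : A) :
    Continuous fun z : A => f (a * (z * b)) := by
  have := continuous_star_mul_mul' hf (star a) b
  simpa using this

end Pool.Agent.Work.MP_10b086_an
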