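import Pool.Agent.Work.MP_10b086_an.Bd.B01
import Pool.Agent.Work.MP_10b086_an.Form

/-!
# Positive functionals on unital Banach algebras with a (discontinuous) involution are continuous
-/

open Topology Filter Set
open scoped ComplexConjugate NNReal ENNReal

namespace Pool.Agent.Work.MP_10b086_an

variable {U : Type*} [NormedRing U] [NormedAlgebra ℂ U] {s : U → U}

/-- positivity of a functional with respect to the involution `s` -/
def Pos (s : U → U) (g : U →ₗ[ℂ] ℂ) : Prop :=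
  ∀ x, 0 ≤ (g (s x * x)).re ∧ (g (s x * x)).im = 0

theorem psd_of_pos (hs : IsInv s) {g : U →ₗ[ℂ] ℂ} (hg : Pos s g) :
    IsPSD (fun x y => g (s x * y)) where
  add_left x y z := by rw [hs.add, add_mul, map_add]
  smul_left c x z := by rw [hs.smul, smul_mul_assoc, map_smul, smul_eq_mul]
  add_right x y z := by rw [mul_add, map_add]
  smul_right c x z := by rw [mul_smul_comm, map_smul, smul_eq_mul]
  nonneg x := hg x

theorem pos_one (hs : IsInv s) {g : U →ₗ[ℂ] ℂ} (hg : Pos s g) : 0 ≤ (g 1).re ∧ (g 1).im = 0 := by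
  have := hg 1
  rwa [hs.one, mul_one] at this

theorem cs_one (hs : IsInv s) {g : U →ₗ[ℂ] ℂ} (hg : Pos s g) (z : U) :
    ‖g z‖ ^ 2 ≤ (g 1).re * (g (s z * z)).re := by
  have := (psd_of_pos hs hg).cs 1 z
  simpa [hs.one] using this

variable [CompleteSpace U] [NormOneClass U]

theorem bound_herm (hs : IsInv s) {g : U →ₗ[ℂ] ℂ} (hg : Pos s g) {h : U} (hh : s h = h) :
    ‖g h‖ ≤ (g 1).re * ‖h‖ := by
  have key : ∀ k : U, s k = k → ‖k‖ < 1 → (g k).re ≤ (g 1).re ∧ (g k).im = 0 := by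
    intro k hk hk1
    obtain ⟨x, hx1, hx2⟩ := ford hs hk hk1
    have h1 := hg x
    rw [hx1, hx2, map_sub, Complex.sub_re, Complex.sub_im, (pos_one hs hg).2] at h1
    exact ⟨by linarith [h1.1], by linarith [h1.2]⟩
  have key2 : ∀ k : U, s k = k → ‖k‖ < 1 → ‖g k‖ ≤ (g 1).re := by
    intro k hk hk1
    have h1 := key k hk hk1
    have h2 := key (-k) (by rw [hs.neg, hk]) (by rwa [norm_neg])
    rw [map_neg, Complex.neg_re] at h2
    have h3 : g k = ((g k).re : ℂ) := Complex.ext rfl (by simp [h1.2])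
    rw [h3, Complex.norm_real, Real.norm_eq_abs, abs_le]
    exact ⟨by linarith [h2.1], h1.1⟩
  refine le_of_forall_pos_le_add fun ε hε => ?_
  have ha := (pos_one hs hg).1
  -- scale
  set a := (g 1).re with haa
  set c : ℝ := ‖h‖ + ε / (a + 1) with hc
  have hc0 : 0 < c := by positivity
  have h4 := key2 (((c : ℂ)⁻¹) • h) (by rw [hs.smul, hh, map_inv₀, Complex.conj_ofReal]) (by
    rw [norm_smul, norm_inv, Complex.norm_real, Real.norm_of_nonneg hc0.le, inv_mul_lt_iff₀ hc0,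
      mul_one, hc]
    have : 0 < ε / (a + 1) := by positivity
    linarith)
  rw [map_smul, smul_eq_mul, norm_mul, norm_inv, Complex.norm_real, Real.norm_of_nonneg hc0.le,
    inv_mul_le_iff₀ hc0] at h4
  refine h4.trans ?_
  have h5 : c * a = a * ‖h‖ + a * (ε / (a + 1)) := by rw [hc]; ring
  rw [h5]
  gcongr
  rw [mul_div_assoc', div_le_iff₀ (by positivity)]
  nlinarith

theorem bound_pow (hs : IsInv s) {g : U →ₗ[ℂ] ℂ} (hg : Pos s g) (k : ℕ) :
    ∀ h : U, s h = h → ‖g h‖ ^ (2 ^ k) ≤ (g 1).re ^ (2 ^ k) * ‖h ^ (2 ^ k)‖ := by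
  have ha := (pos_one hs hg).1
  induction k with
  | zero =>
    intro h hh
    simpa using bound_herm hs hg hh
  | succ k ih =>
    intro h hh
    have h1 : ‖g h‖ ^ 2 ≤ (g 1).re * ‖g (h * h)‖ := by
      refine (cs_one hs hg h).trans ?_
      rw [hh]
      gcongr
      exact Complex.re_le_norm _
    have h2 := ih (h * h) (by rw [hs.mul, hh])
    calc ‖g h‖ ^ (2 ^ (k + 1)) = (‖g h‖ ^ 2) ^ (2 ^ k) := by rw [← pow_mul]; ring_nf
      _ ≤ ((g 1).re * ‖g (h * h)‖) ^ (2 ^ k) := by gcongr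
      _ = (g 1).re ^ (2 ^ k) * ‖g (h * h)‖ ^ (2 ^ k) := mul_pow _ _ _
      _ ≤ (g 1).re ^ (2 ^ k) * ((g 1).re ^ (2 ^ k) * ‖(h * h) ^ (2 ^ k)‖) := by gcongr
      _ = (g 1).re ^ (2 ^ (k + 1)) * ‖h ^ (2 ^ (k + 1))‖ := by
          rw [← sq, ← pow_mul, ← mul_assoc, ← pow_add]
          ring_nf

/-- positive functionals are dominated by the spectral radius on hermitian elements -/
theorem bound_spec (hs : IsInv s) {g : U →ₗ[ℂ] ℂ} (hg : Pos s g) {h : U} (hh : s h = h) {κ : ℝ}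
    (hκ : 0 ≤ κ) (hr : spectralRadius ℂ h ≤ ENNReal.ofReal κ) : ‖g h‖ ≤ (g 1).re * κ := by
  have ha := (pos_one hs hg).1
  have key : ∀ κ' : ℝ, κ < κ' → ‖g h‖ ≤ (g 1).re * κ' := by
    intro κ' hκ'
    have hκ0 : 0 < κ' := hκ.trans_lt hκ'
    have h1 : spectralRadius ℂ h < ENNReal.ofReal κ' :=
      hr.trans_lt ((ENNReal.ofReal_lt_ofReal_iff hκ0).2 hκ')
    obtain ⟨N, hN⟩ := eventually_atTop.1 (eventually_pow_le hκ0.le h1)
    have h2 := hN (2 ^ N) (Nat.lt_two_pow_self).le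
    have h3 := bound_pow hs hg N h hh
    have h4 : ‖g h‖ ^ (2 ^ N) ≤ ((g 1).re * κ') ^ (2 ^ N) := by
      rw [mul_pow]
      refine h3.trans ?_
      gcongr
    exact le_of_pow_le_pow_left₀ (by positivity) (by positivity) h4
  refine le_of_forall_pos_le_add fun ε hε => ?_
  have h5 := key (κ + ε / ((g 1).re + 1)) (by
    have : 0 < ε / ((g 1).re + 1) := by positivity
    linarith)
  refine h5.trans ?_
  rw [mul_add]
  gcongr
  rw [mul_div_assoc', div_le_iff₀ (by positivity)]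
  nlinarith

/-- the separating space of `s` -/
def sepSpace (hs : IsInv s) : Submodule ℂ U where
  carrier := {y | ∀ ε : ℝ, 0 < ε → ∃ z : U, ‖z‖ < ε ∧ ‖s z - y‖ < ε}
  zero_mem' := fun ε hε => ⟨0, by simpa using hε, by simpa [hs.zero] using hε⟩
  add_mem' := by
    intro x y hx hy ε hε
    obtain ⟨z, hz1, hz2⟩ := hx (ε / 2) (by positivity)
    obtain ⟨w, hw1, hw2⟩ := hy (ε / 2) (by positivity)
    refine ⟨z + w, (norm_add_le _ _).trans_lt (by linarith), ?_⟩
    rw [hs.add, add_sub_add_comm]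
    exact (norm_add_le _ _).trans_lt (by linarith)
  smul_mem' := by
    intro c x hx ε hε
    have hc : 0 < ‖c‖ + 1 := by positivity
    obtain ⟨z, hz1, hz2⟩ := hx (ε / (‖c‖ + 1)) (by positivity)
    rw [lt_div_iff₀ hc] at hz1 hz2
    refine ⟨conj c • z, ?_, ?_⟩
    · rw [norm_smul, RCLike.norm_conj]
      nlinarith [norm_nonneg z]
    · rw [hs.smul, Complex.conj_conj, ← smul_sub, norm_smul]
      nlinarith [norm_nonneg (s z - x)]

theorem mem_sepSpace (hs : IsInv s) {y : U} :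
    y ∈ sepSpace hs ↔ ∀ ε : ℝ, 0 < ε → ∃ z : U, ‖z‖ < ε ∧ ‖s z - y‖ < ε := Iff.rfl

theorem isClosed_sepSpace (hs : IsInv s) : IsClosed (sepSpace hs : Set U) := by
  rw [← closure_subset_iff_isClosed]
  intro y hy
  rw [SetLike.mem_coe, mem_sepSpace]
  intro ε hε
  obtain ⟨y', hy', hd⟩ := Metric.mem_closure_iff.1 hy (ε / 2) (by positivity)
  obtain ⟨z, hz1, hz2⟩ := (mem_sepSpace hs).1 hy' (ε / 2) (by positivity)
  refine ⟨z, by linarith, ?_⟩
  have : s z - y = (s z - y') + (y' - y) := by abel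
  rw [this]
  rw [dist_comm, dist_eq_norm] at hd
  exact (norm_add_le _ _).trans_lt (by linarith)

theorem sepSpace_mul_left (hs : IsInv s) (a : U) {y : U} (hy : y ∈ sepSpace hs) :
    a * y ∈ sepSpace hs := by
  rw [mem_sepSpace] at hy ⊢
  intro ε hε
  have hc : 0 < ‖a‖ + ‖s a‖ + 1 := by positivity
  obtain ⟨z, hz1, hz2⟩ := hy (ε / (‖a‖ + ‖s a‖ + 1)) (by positivity)
  rw [lt_div_iff₀ hc] at hz1 hz2
  refine ⟨z * s a, ?_, ?_⟩
  · refine (norm_mul_le _ _).trans_lt ?_
    nlinarith [norm_nonneg z, norm_nonneg a, norm_nonneg (s a)]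
  · rw [hs.mul, hs.invol, ← mul_sub]
    refine (norm_mul_le _ _).trans_lt ?_
    nlinarith [norm_nonneg (s z - y), norm_nonneg a, norm_nonneg (s a)]

theorem sepSpace_mul_right (hs : IsInv s) (a : U) {y : U} (hy : y ∈ sepSpace hs) :
    y * a ∈ sepSpace hs := by
  rw [mem_sepSpace] at hy ⊢
  intro ε hε
  have hc : 0 < ‖a‖ + ‖s a‖ + 1 := by positivity
  obtain ⟨z, hz1, hz2⟩ := hy (ε / (‖a‖ + ‖s a‖ + 1)) (by positivity)
  rw [lt_div_iff₀ hc] at hz1 hz2
  refine ⟨s a * z, ?_, ?_⟩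
  · refine (norm_mul_le _ _).trans_lt ?_
    nlinarith [norm_nonneg z, norm_nonneg a, norm_nonneg (s a)]
  · rw [hs.mul, hs.invol, ← sub_mul]
    refine (norm_mul_le _ _).trans_lt ?_
    nlinarith [norm_nonneg (s z - y), norm_nonneg a, norm_nonneg (s a)]

theorem spec_sepSpace (hs : IsInv s) {y : U} (hy : y ∈ sepSpace hs) : spectralRadius ℂ y = 0 := by
  rw [mem_sepSpace] at hy
  choose z hz1 hz2 using fun n : ℕ => hy (1 / ((n : ℝ) + 1)) Nat.one_div_pos_of_nat
  refine johnson hs (z := z) ?_ ?_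
  · exact squeeze_zero_norm (fun n => (hz1 n).le) tendsto_one_div_add_atTop_nhds_zero_nat
  · rw [tendsto_iff_norm_sub_tendsto_zero]
    exact squeeze_zero (fun n => norm_nonneg _) (fun n => (hz2 n).le)
      tendsto_one_div_add_atTop_nhds_zero_nat

/-- `s` is continuous modulo its separating space -/
theorem exists_bound (hs : IsInv s) :
    ∃ C : ℝ, 0 ≤ C ∧ ∀ z : U, ∃ y ∈ sepSpace hs, ‖s z + y‖ ≤ C * ‖z‖ := by
  haveI : IsClosed (sepSpace hs : Set U) := isClosed_sepSpace hs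
  let T : U →ₗ[ℝ] (U ⧸ sepSpace hs) :=
    { toFun := fun z => Submodule.Quotient.mk (s z)
      map_add' := fun x y => by rw [hs.add]; rfl
      map_smul' := fun c x => by
        have : c • x = (c : ℂ) • x := (Complex.coe_smul c x).symm
        rw [this, hs.smul, Complex.conj_ofReal, Complex.coe_smul]
        rfl }
  have hT : Continuous T := by
    refine T.continuous_of_seq_closed_graph fun u x y hu hTu => ?_
    obtain ⟨w, rfl⟩ := Submodule.Quotient.mk_surjective _ y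
    change Submodule.Quotient.mk w = Submodule.Quotient.mk (s x)
    rw [Submodule.Quotient.eq, mem_sepSpace]
    intro ε hε
    -- approximations
    have h1 : ∀ᶠ n in atTop, ‖u n - x‖ < ε / 2 := by
      rw [tendsto_iff_norm_sub_tendsto_zero] at hu
      exact hu.eventually_lt_const (by positivity)
    have h2 : ∀ᶠ n in atTop, ‖(T (u n)) - Submodule.Quotient.mk w‖ < ε / 4 := by
      rw [tendsto_iff_norm_sub_tendsto_zero] at hTu
      exact hTu.eventually_lt_const (by positivity)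
    obtain ⟨n, hn1, hn2⟩ := (h1.and h2).exists
    obtain ⟨m, hm1, hm2⟩ := Submodule.Quotient.norm_mk_lt
      ((T (u n)) - Submodule.Quotient.mk w : U ⧸ sepSpace hs) (show 0 < ε / 4 by positivity)
    have hm3 : m - (s (u n) - w) ∈ sepSpace hs := by
      rw [← Submodule.Quotient.eq, hm1]
      rfl
    obtain ⟨z, hz1, hz2⟩ := (mem_sepSpace hs).1 hm3 (ε / 2) (by positivity)
    refine ⟨(u n - x) + z, (norm_add_le _ _).trans_lt (by linarith), ?_⟩
    have e : s (u n - x + z) - (w - s x) = (s z - (m - (s (u n) - w))) + m := by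
      rw [hs.add, hs.sub]; abel
    rw [e]
    refine (norm_add_le _ _).trans_lt ?_
    linarith
  obtain ⟨C, hC0, hC⟩ := (⟨T, hT⟩ : U →L[ℝ] (U ⧸ sepSpace hs)).bound
  refine ⟨C + 1, by linarith, fun z => ?_⟩
  rcases eq_or_ne z 0 with rfl | hz
  · exact ⟨0, zero_mem _, by simp [hs.zero]⟩
  · have hz' : 0 < ‖z‖ := norm_pos_iff.2 hz
    obtain ⟨m, hm1, hm2⟩ := Submodule.Quotient.norm_mk_lt (T z) hz'
    refine ⟨m - s z, ?_, ?_⟩
    · rw [← Submodule.Quotient.eq, hm1]
      rfl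
    · have e : s z + (m - s z) = m := by abel
      rw [e]
      have := hC z
      change ‖T z‖ ≤ C * ‖z‖ at this
      linarith

theorem spec_add_le {v q : U} (hq : ∀ a : U, spectralRadius ℂ (a * q) = 0) :
    spectralRadius ℂ (v + q) ≤ ENNReal.ofReal ‖v‖ := by
  rw [spectralRadius]
  refine iSup₂_le fun l hl => ?_
  by_contra hcon
  push Not at hcon
  have hl1 : ‖v‖ < ‖l‖ := by
    rw [← ENNReal.ofReal_coe_nnreal, coe_nnnorm] at hcon
    exact (ENNReal.ofReal_lt_ofReal_iff_of_nonneg (norm_nonneg _)).1 hcon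
  -- `l - v` is a unit
  have hu : l ∉ spectrum ℂ v := fun h => absurd (spectrum.norm_le_norm_of_mem h) (not_le.2 hl1)
  rw [spectrum.notMem_iff] at hu
  obtain ⟨a, ha⟩ := hu
  have h1 : IsUnit (1 - (↑a⁻¹ : U) * q) := by
    have h2 : (1 : ℂ) ∉ spectrum ℂ ((↑a⁻¹ : U) * q) := by
      intro h3
      have h4 := le_iSup₂ (f := fun (k : ℂ) (_ : k ∈ spectrum ℂ ((↑a⁻¹ : U) * q)) => (‖k‖₊ : ℝ≥0∞))
        1 h3
      have h5 := hq ↑a⁻¹
      rw [spectralRadius] at h5
      rw [h5] at h4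
      simp at h4
    rw [spectrum.notMem_iff, map_one] at h2
    exact h2
  apply hl
  rw [spectrum.mem_resolventSet_iff]
  have e : algebraMap ℂ U l - (v + q) = a * (1 - (↑a⁻¹ : U) * q) := by
    rw [mul_sub, mul_one, ← mul_assoc, Units.mul_inv, one_mul, ha]
    abel
  rw [e]
  exact a.isUnit.mul h1

/-- **Positive functionals on a unital Banach algebra with involution are continuous.** -/
theorem continuous_of_pos (hs : IsInv s) {g : U →ₗ[ℂ] ℂ} (hg : Pos s g) : Continuous g := by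
  obtain ⟨C, hC0, hC⟩ := exists_bound hs
  have ha := (pos_one hs hg).1
  have key : ∀ z : U, ‖g z‖ ≤ ((g 1).re * Real.sqrt C) * ‖z‖ := by
    intro z
    obtain ⟨y, hy, hyC⟩ := hC z
    have e : s z * z = (s z + y) * z + (-(y * z)) := by rw [add_mul]; abel
    have hr : spectralRadius ℂ (s z * z) ≤ ENNReal.ofReal (C * ‖z‖ * ‖z‖) := by
      rw [e]
      refine (spec_add_le (v := (s z + y) * z) (q := -(y * z)) fun a => ?_).trans ?_
      · refine spec_sepSpace hs (sepSpace_mul_left hs a (neg_mem (sepSpace_mul_right hs z hy)))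
      · refine ENNReal.ofReal_le_ofReal ((norm_mul_le _ _).trans ?_)
        gcongr
    have h1 := bound_spec hs hg (h := s z * z) (by rw [hs.mul, hs.invol]) (by positivity) hr
    have h2 := cs_one hs hg z
    have h3 : ‖g z‖ ^ 2 ≤ (((g 1).re * Real.sqrt C) * ‖z‖) ^ 2 := by
      calc ‖g z‖ ^ 2 ≤ (g 1).re * (g (s z * z)).re := h2
        _ ≤ (g 1).re * ((g 1).re * (C * ‖z‖ * ‖z‖)) := by
            gcongr
            exact (Complex.re_le_norm _).trans h1
        _ = (((g 1).re * Real.sqrt C) * ‖z‖) ^ 2 := by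
            rw [mul_pow, mul_pow, Real.sq_sqrt hC0]; ring
    exact (abs_le_of_sq_le_sq' h3 (by positivity)).2
  exact AddMonoidHomClass.continuous_of_bound g _ key

end Pool.Agent.Work.MP_10b086_an
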