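import Pool.Agent.Work.MP_10b086_an.Bd.B02
import Pool.Agent.Work.MP_10b086_an.Trace

/-!
# Positive functionals on separable Banach *-algebras
-/

open Topology Filter Set
open scoped ComplexConjugate NNReal ENNReal

namespace Pool.Agent.Work.MP_10b086_an

variable {A : Type*} [NonUnitalNormedRing A] [NormedSpace ℂ A] [IsScalarTower ℂ A A]
  [SMulCommClass ℂ A A] [CompleteSpace A] [StarRing A] [StarModule ℂ A]

omit [StarRing A] [StarModule ℂ A] in
theorem isClosed_Sq [TopologicalSpace.SeparableSpace A] (h : FiniteDimensional ℂ (A ⧸ Sq A)) :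
    IsClosed (Sq A : Set A) := by
  have : SecondCountableTopology A := UniformSpace.secondCountable_of_separable A
  have htop : MeasureTheory.AnalyticSet ((⊤ : Submodule ℂ A) : Set A) := isClosed_univ.analyticSet
  have h1 := analytic_span_mul A ⊤ ⊤ htop htop
  have e1 : Submodule.span ℂ {x | ∃ a ∈ (⊤ : Submodule ℂ A), ∃ b ∈ (⊤ : Submodule ℂ A),
      x = a * b} = Sq A := by
    unfold Sq
    congr 1
    ext x
    simp
  rw [e1] at h1
  exact isClosed_of_analytic_cofinite (Sq A) h1 h

omit [SMulCommClass ℂ A A] [CompleteSpace A] [StarRing A] [StarModule ℂ A] in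
theorem exists_rep_Sq {z : A} (hz : z ∈ Sq A) :
    ∃ (n : ℕ) (a b : Fin n → A), z = ∑ i, a i * b i := by
  refine Submodule.span_induction (p := fun z _ => ∃ (n : ℕ) (a b : Fin n → A),
    z = ∑ i, a i * b i) ?_ ?_ ?_ ?_ hz
  · rintro _ ⟨a, b, rfl⟩
    exact ⟨1, fun _ => a, fun _ => b, by simp⟩
  · exact ⟨0, fun _ => 0, fun _ => 0, by simp⟩
  · rintro z1 z2 _ _ ⟨n1, x1, w1, rfl⟩ ⟨n2, x2, w2, rfl⟩
    refine ⟨n1 + n2, Fin.append x1 x2, Fin.append w1 w2, ?_⟩
    rw [Fin.sum_univ_add]
    simp
  · rintro r z1 _ ⟨n1, x1, w1, rfl⟩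
    refine ⟨n1, fun j => r • x1 j, w1, ?_⟩
    rw [Finset.smul_sum]
    simp only [smul_mul_assoc]

/-- the separating space of the involution -/
def SepInv (A : Type*) [NonUnitalNormedRing A] [StarRing A] : Set A :=
  {s | ∃ a : ℕ → A, Tendsto a atTop (𝓝 0) ∧ Tendsto (fun n => star (a n)) atTop (𝓝 s)}

/-- the closure of the graph of the involution -/
def Gr (A : Type*) [NonUnitalNormedRing A] [StarRing A] : Set (A × A) :=
  closure {p | p.1 = star p.2}

/-- the sums of products `b a` over the closure of the graph -/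
def SS (A : Type*) [NonUnitalNormedRing A] [NormedSpace ℂ A] [StarRing A] : Set (Sq A) :=
  {w | ∃ (n : ℕ) (p : Fin n → Gr A), (w : A) = ∑ i, (p i : A × A).1 * (p i : A × A).2}

omit [NormedSpace ℂ A] [IsScalarTower ℂ A A] [SMulCommClass ℂ A A] [CompleteSpace A]
  [StarModule ℂ A] in
theorem sub_star_mem_Sep {p : A × A} (hp : p ∈ Gr A) : p.1 - star p.2 ∈ SepInv A := by
  obtain ⟨q, hq, hlim⟩ := mem_closure_iff_seq_limit.1 hp
  refine ⟨fun n => (q n).2 - p.2, ?_, ?_⟩
  · have h1 : Tendsto (fun n => (q n).2) atTop (𝓝 p.2) := (continuous_snd.tendsto p).comp hlim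
    have := h1.sub_const p.2
    simpa using this
  · have h1 : Tendsto (fun n => (q n).1) atTop (𝓝 p.1) := (continuous_fst.tendsto p).comp hlim
    have h2 := h1.sub_const (star p.2)
    refine h2.congr fun n => ?_
    rw [star_sub, ← hq n]

omit [NormedSpace ℂ A] [IsScalarTower ℂ A A] [SMulCommClass ℂ A A] [CompleteSpace A]
  [StarModule ℂ A] in
theorem star_mem_Sep {s : A} (hs : s ∈ SepInv A) : star s ∈ SepInv A := by
  obtain ⟨a, h1, h2⟩ := hs
  refine ⟨fun n => s - star (a n), ?_, ?_⟩
  · have := h2.const_sub s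
    simpa using this
  · have : Tendsto (fun n => star s - a n) atTop (𝓝 (star s - 0)) := h1.const_sub _
    rw [sub_zero] at this
    refine this.congr fun n => ?_
    rw [star_sub, star_star]

omit [IsScalarTower ℂ A A] [SMulCommClass ℂ A A] [StarModule ℂ A] in
theorem analytic_SS [TopologicalSpace.SeparableSpace A] :
    MeasureTheory.AnalyticSet (SS A) := by
  have : SecondCountableTopology A := UniformSpace.secondCountable_of_separable A
  have hcl : IsClosed (Gr A) := isClosed_closure
  have hP : PolishSpace (Gr A) := hcl.polishSpace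
  let g : ∀ n : ℕ, (Fin n → Gr A) → Sq A := fun n p =>
    ⟨∑ i, (p i : A × A).1 * (p i : A × A).2, Submodule.sum_mem _ fun i _ => mul_mem_Sq _ _⟩
  have hg : ∀ n, Continuous (g n) := by
    intro n
    refine Continuous.subtype_mk ?_ _
    refine continuous_finsetSum _ fun i _ => ?_
    have h1 : Continuous fun p : Fin n → Gr A => (p i : A × A) :=
      continuous_subtype_val.comp (continuous_apply i)
    exact (continuous_fst.comp h1).mul (continuous_snd.comp h1)
  have e : SS A = ⋃ n : ℕ, range (g n) := by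
    ext w
    simp only [SS, Set.mem_ofPred_eq, Set.mem_iUnion, Set.mem_range]
    constructor
    · rintro ⟨n, a, h⟩
      exact ⟨n, a, Subtype.ext h.symm⟩
    · rintro ⟨n, a, rfl⟩
      exact ⟨n, a, rfl⟩
  rw [e]
  exact MeasureTheory.AnalyticSet.iUnion fun n =>
    MeasureTheory.analyticSet_range_of_polishSpace (hg n)

/-- a positive functional that vanishes on the squares of the separating space kills
`S A` -/
theorem zero_of_Sep {f : A →ₗ[ℂ] ℂ} (hf : IsPositive f) (h0 : ∀ s ∈ SepInv A, f (star s * s) = 0)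
    {s : A} (hs : s ∈ SepInv A) (a : A) : f (s * a) = 0 := by
  have h1 := (psd_of_isPositive hf).cs (star s) a
  simp only [star_star] at h1
  have h2 : f (s * star s) = 0 := by
    have := h0 (star s) (star_mem_Sep hs)
    rwa [star_star] at this
  rw [h2, Complex.zero_re, zero_mul] at h1
  have h3 : ‖f (s * a)‖ = 0 := by
    have := sq_nonneg ‖f (s * a)‖
    exact pow_eq_zero_iff (two_ne_zero) |>.1 (le_antisymm h1 this)
  exact norm_eq_zero.1 h3

/-- **Positive functionals on separable Banach *-algebras with `A²` cofinite that vanish on the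
squares of the separating space of the involution are continuous** -/
theorem positive_continuous_of_Sep [TopologicalSpace.SeparableSpace A]
    {f : A →ₗ[ℂ] ℂ} (hf : IsPositive f) (h : FiniteDimensional ℂ (A ⧸ Sq A))
    (h0 : ∀ s ∈ SepInv A, f (star s * s) = 0) : Continuous f := by
  have hcl := isClosed_Sq h
  have : CompleteSpace (Sq A) := hcl.completeSpace_coe
  have hcont : Continuous (f ∘ₗ (Sq A).subtype) := by
    refine continuous_of_analytic_pos (SS A) analytic_SS _ ?_ ?_
    · rintro c ⟨n, p, hc⟩
      change 0 ≤ (f c).re ∧ (f c).im = 0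
      have key : ∀ i, f ((p i : A × A).1 * (p i : A × A).2) =
          f (star (p i : A × A).2 * (p i : A × A).2) := by
        intro i
        have h1 := zero_of_Sep hf h0 (sub_star_mem_Sep (p i).2) (p i : A × A).2
        rw [sub_mul, map_sub, sub_eq_zero] at h1
        exact h1
      rw [hc, map_sum, Complex.re_sum, Complex.im_sum]
      refine ⟨Finset.sum_nonneg fun i _ => ?_, Finset.sum_eq_zero fun i _ => ?_⟩
      · rw [key i]; exact (hf _).1
      · rw [key i]; exact (hf _).2
    · intro z
      obtain ⟨n, a, b, hz⟩ := exists_rep_Sq z.2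
      let s : ℂ → Fin n → A := fun u i => (1 / 2 : ℂ) • (b i + u • star (a i))
      let S : ℂ → Sq A := fun u =>
        ⟨∑ i, star (s u i) * s u i, Submodule.sum_mem _ fun i _ => mul_mem_Sq _ _⟩
      have hS : ∀ u, S u ∈ SS A := fun u =>
        ⟨n, fun i => ⟨(star (s u i), s u i), subset_closure rfl⟩, rfl⟩
      refine ⟨S 1, hS 1, S (-1), hS _, S Complex.I, hS _, S (-Complex.I), hS _, ?_⟩
      apply Subtype.ext
      change (z : A) = ((∑ i, star (s 1 i) * s 1 i) - (∑ i, star (s (-1) i) * s (-1) i)) +
        Complex.I • ((∑ i, star (s Complex.I i) * s Complex.I i) -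
          (∑ i, star (s (-Complex.I) i) * s (-Complex.I) i))
      rw [hz, ← Finset.sum_sub_distrib, ← Finset.sum_sub_distrib, Finset.smul_sum,
        ← Finset.sum_add_distrib]
      refine Finset.sum_congr rfl fun i _ => ?_
      simp only [s]
      simp only [star_smul, star_add, star_star, smul_mul_assoc, mul_smul_comm, mul_add, add_mul,
        smul_add, smul_smul, smul_sub]
      simp only [RCLike.star_def, map_mul, map_neg, map_one, Complex.conj_I, map_div₀, map_ofNat]
      match_scalars <;> (ring_nf; try simp only [Complex.I_sq]; try ring)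
  obtain ⟨M, hM⟩ : ∃ M : ℝ, ∀ z ∈ Sq A, ‖f z‖ ≤ M * ‖z‖ := by
    let g : Sq A →L[ℂ] ℂ := ⟨f ∘ₗ (Sq A).subtype, hcont⟩
    exact ⟨‖g‖, fun z hz => g.le_opNorm ⟨z, hz⟩⟩
  exact continuous_of_cofinite (Sq A) hcl h f hM

/-- the converse: continuous positive functionals vanish on the squares of the separating
space -/
theorem zero_of_continuous {f : A →ₗ[ℂ] ℂ} (hf : IsPositive f) (hc : Continuous f)
    {s : A} (hs : s ∈ SepInv A) : f (star s * s) = 0 := by
  obtain ⟨a, h1, h2⟩ := hs
  have e : ∀ n, f (star s * star (a n)) = conj (f (a n * s)) := by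
    intro n
    have := (psd_of_isPositive hf).symm s (star (a n))
    simp only [star_star] at this
    exact this.symm
  have h3 : Tendsto (fun n => f (star s * star (a n))) atTop (𝓝 (f (star s * s))) :=
    (hc.tendsto _).comp (h2.const_mul (star s))
  have h4 : Tendsto (fun n => conj (f (a n * s))) atTop (𝓝 (conj (f (0 * s)))) :=
    (Complex.continuous_conj.tendsto _).comp ((hc.tendsto _).comp (h1.mul_const s))
  rw [zero_mul, map_zero, map_zero] at h4
  exact tendsto_nhds_unique (h3.congr e) h4

omit [NormedSpace ℂ A] [IsScalarTower ℂ A A] [SMulCommClass ℂ A A] [CompleteSpace A]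
  [StarModule ℂ A] in
theorem Sep_of_continuousStar [ContinuousStar A] {s : A} (hs : s ∈ SepInv A) : s = 0 := by
  obtain ⟨a, h1, h2⟩ := hs
  have h3 : Tendsto (fun n => star (a n)) atTop (𝓝 (star (0 : A))) :=
    (continuous_star.tendsto _).comp h1
  rw [star_zero] at h3
  exact tendsto_nhds_unique h2 h3

/-- **Positive functionals are continuous if `A` is separable, `A²` is cofinite and the
involution is continuous** -/
theorem positive_continuous_of_separable [TopologicalSpace.SeparableSpace A] [ContinuousStar A]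
    {f : A →ₗ[ℂ] ℂ} (hf : IsPositive f) (h : FiniteDimensional ℂ (A ⧸ Sq A)) :
    Continuous f := by
  refine positive_continuous_of_Sep hf h fun s hs => ?_
  rw [Sep_of_continuousStar hs, mul_zero, map_zero]

end Pool.Agent.Work.MP_10b086_an
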